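import Mathlib

set_option autoImplicit false

namespace Pool.Agent.Helper48.KM

open MvPolynomial

noncomputable section

/-- The value at `s` of a triple of Laurent polynomials with coefficients in `ℂ[σ]`, the variables
`σ` being given the values `t`. -/
def famValue {σ : Type} (F : Fin 3 → LaurentPolynomial (MvPolynomial σ ℂ)) (t : σ → ℂ) (s : ℂˣ) :
    Fin 3 → ℂ :=
  fun i => LaurentPolynomial.eval₂ (eval t) s (F i)

/-- `V` is dominated by images of the multiplicative group. -/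
def DominatedByGm (V : Set (Fin 3 → ℂ)) : Prop :=
  ∃ (n : ℕ) (J : Set (MvPolynomial (Fin n) ℂ)) (F : Fin 3 → LaurentPolynomial (MvPolynomial (Fin n) ℂ)),
    (∀ t : Fin n → ℂ, (∀ p ∈ J, eval t p = 0) →
      (∀ s : ℂˣ, famValue F t s ∈ V) ∧ ∃ s s' : ℂˣ, famValue F t s ≠ famValue F t s') ∧
    ∀ g : MvPolynomial (Fin 3) ℂ,
      (∀ t : Fin n → ℂ, (∀ p ∈ J, eval t p = 0) → ∀ s : ℂˣ, eval (famValue F t s) g = 0) →
      ∀ P ∈ V, eval P g = 0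

/-- The coordinates are `z = P 0`, `x = P 1`, `y = P 2`. -/
def surfLow (e : ℕ) (A C : ℂ) : Set (Fin 3 → ℂ) :=
  {P | P 2 ^ 2 = P 1 ^ 3 + A * P 1 * P 0 ^ 4 + C * P 0 ^ 6 + P 0 ^ e ∧ ¬ (P 0 = 0 ∧ P 1 * P 2 = 0)}

def surfEight (A C : ℂ) : Set (Fin 3 → ℂ) :=
  {P | P 2 ^ 2 = P 0 * (P 1 ^ 3 + A * P 1 * P 0 ^ 2 + C * P 0 ^ 3) + 1 ∧ ¬ (P 0 = 0 ∧ P 1 = 0)}

def surfNine (A C : ℂ) : Set (Fin 3 → ℂ) :=
  {P | P 0 * P 2 ^ 2 = P 1 ^ 3 + A * P 1 * P 0 ^ 2 + C * P 0 ^ 3 + 1}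

/-- value of a triple of Laurent polynomials -/
def val (f : Fin 3 → LaurentPolynomial ℂ) (s : ℂˣ) : Fin 3 → ℂ :=
  fun i => LaurentPolynomial.eval₂ (RingHom.id ℂ) s (f i)

/-- nonconstant morphism from the multiplicative group to `V` -/
def IsGm (V : Set (Fin 3 → ℂ)) (f : Fin 3 → LaurentPolynomial ℂ) : Prop :=
  (∀ s : ℂˣ, val f s ∈ V) ∧ ∃ s s' : ℂˣ, val f s ≠ val f s'

/-- the curve tends, for `s → 0`, to the point with coordinate `ξ` at infinity (weights `1, w`) -/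
def Lim (w : ℕ) (f : Fin 3 → LaurentPolynomial ℂ) (ξ : ℂ) : Prop :=
  ∃ (j : ℕ) (p q : Polynomial ℂ), 1 ≤ j ∧ p.eval 0 ≠ 0 ∧ q.eval 0 = ξ * p.eval 0 ^ w ∧
    ∀ s : ℂˣ, val f s 0 * (s : ℂ) ^ j = p.eval (s : ℂ) ∧ val f s 1 * (s : ℂ) ^ (w * j) = q.eval (s : ℂ)

/-- the cubic polynomial of the elliptic curve -/
def ph (A C X : ℂ) : ℂ := X ^ 3 + A * X + C

end

end Pool.Agent.Helper48.KM
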