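import Pool.Agent.Helper48.KM.Stmts

set_option autoImplicit false

namespace Pool.Agent.Helper48.KM

open MvPolynomial

noncomputable section

/-- curves from a family with many limits -/
lemma all_gen (hDEN : ST_DEN) (hNRM : ST_NRM) (w : ℕ) (hw : 1 ≤ w) (V : Set (Fin 3 → ℂ)) (hM : Many w V)
    (Q : Polynomial (Polynomial ℂ)) (l : Polynomial ℂ) (hl : l ≠ 0) (hQ : Odd Q.natDegree)
    (hVQ : ∀ P ∈ V, l.eval (P 0) * P 2 ^ 2 = (Q.map (Polynomial.evalRingHom (P 0))).eval (P 1))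
    (hNV : ∀ g : MvPolynomial (Fin 3) ℂ, (∀ P : Fin 3 → ℂ, l.eval (P 0) ≠ 0 →
      l.eval (P 0) * P 2 ^ 2 = (Q.map (Polynomial.evalRingHom (P 0))).eval (P 1) → eval P g = 0) →
      ∀ P ∈ V, eval P g = 0)
    (g : ℕ → MvPolynomial (Fin 3) ℂ) (hg : ∀ n, ∃ P ∈ V, eval P (g n) ≠ 0) :
    ∃ f : Fin 3 → LaurentPolynomial ℂ, IsGm V f ∧ ∀ n, ∃ s : ℂˣ, eval (val f s) (g n) ≠ 0 := by
  have h1 : ∀ n, ∃ N : MvPolynomial (Fin 2) ℂ, N ≠ 0 ∧ ∀ P : Fin 3 → ℂ,
      l.eval (P 0) * P 2 ^ 2 = (Q.map (Polynomial.evalRingHom (P 0))).eval (P 1) → eval P (g n) = 0 →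
      eval ![P 0, P 1] N = 0 := by
    intro n
    rcases hNRM Q l hl hQ (g n) with h | h
    · exact h
    · exfalso
      obtain ⟨P, hP, hP'⟩ := hg n
      exact hP' (hNV (g n) h P hP)
  choose N hN0 hN using h1
  have h2 : (⋃ n, {ξ : ℂ | ∃ f : Fin 3 → LaurentPolynomial ℂ, Lim w f ξ ∧
      ∀ s : ℂˣ, eval ![val f s 0, val f s 1] (N n) = 0}).Countable :=
    Set.countable_iUnion (fun n => (hDEN w (N n) hw (hN0 n)).countable)
  have h3 : ∃ ξ : ℂ, (∃ f : Fin 3 → LaurentPolynomial ℂ, IsGm V f ∧ Lim w f ξ) ∧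
      ξ ∉ ⋃ n, {ξ : ℂ | ∃ f : Fin 3 → LaurentPolynomial ℂ, Lim w f ξ ∧
      ∀ s : ℂˣ, eval ![val f s 0, val f s 1] (N n) = 0} := by
    by_contra hcon
    push Not at hcon
    exact hM (h2.mono (fun ξ hξ => hcon ξ hξ))
  obtain ⟨ξ, ⟨f, hf, hlim⟩, hξ⟩ := h3
  refine ⟨f, hf, fun n => ?_⟩
  by_contra hcon
  push Not at hcon
  apply hξ
  refine Set.mem_iUnion.2 ⟨n, f, hlim, fun s => ?_⟩
  exact hN n (val f s) (hVQ _ (hf.1 s)) (hcon s)

lemma all_unc (S : ℕ → Set ℂ) (hS : ∀ n, (S n).Finite) : ∃ x : ℂ, ∀ n, x ∉ S n := by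
  by_contra hcon
  push Not at hcon
  apply not_countable_complex
  refine (Set.countable_iUnion (fun n => (hS n).countable)).mono ?_
  intro x _
  obtain ⟨n, hn⟩ := hcon x
  exact Set.mem_iUnion.2 ⟨n, hn⟩

/-- a point avoiding countably many plane curves -/
lemma all_avoid (N : ℕ → MvPolynomial (Fin 2) ℂ) (hN : ∀ n, N n ≠ 0) :
    ∃ z x : ℂ, z ≠ 0 ∧ ∀ n, eval ![z, x] (N n) ≠ 0 := by
  have h1 : ∀ n, ∃ P : Fin 2 → ℂ, eval P (N n) ≠ 0 := by
    intro n
    by_contra hcon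
    push Not at hcon
    apply hN n
    apply MvPolynomial.funext
    intro x
    rw [hcon x, map_zero]
  choose P hP using h1
  -- one-variable polynomials
  have e1 : ∀ (n : ℕ) (z : ℂ), ((N n).aeval ![Polynomial.X, Polynomial.C (P n 1)] : Polynomial ℂ).eval z =
      eval ![z, P n 1] (N n) := by
    intro n z
    induction (N n) using MvPolynomial.induction_on with
    | C a => simp
    | add p q hp hq => rw [map_add, Polynomial.eval_add, hp, hq, map_add]
    | mul_X p i hp =>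
      rw [map_mul, Polynomial.eval_mul, hp, map_mul, aeval_X, eval_X]
      congr 1
      fin_cases i
      · simp
      · simp
  have e2 : ∀ (n : ℕ) (z x : ℂ), ((N n).aeval ![Polynomial.C z, Polynomial.X] : Polynomial ℂ).eval x =
      eval ![z, x] (N n) := by
    intro n z x
    induction (N n) using MvPolynomial.induction_on with
    | C a => simp
    | add p q hp hq => rw [map_add, Polynomial.eval_add, hp, hq, map_add]
    | mul_X p i hp =>
      rw [map_mul, Polynomial.eval_mul, hp, map_mul, aeval_X, eval_X]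
      congr 1
      fin_cases i
      · simp
      · simp
  have hPP : ∀ n, (![P n 0, P n 1] : Fin 2 → ℂ) = P n := by
    intro n
    funext i
    fin_cases i
    · rfl
    · rfl
  have n1 : ∀ n, ((N n).aeval ![Polynomial.X, Polynomial.C (P n 1)] : Polynomial ℂ) ≠ 0 := by
    intro n h
    apply hP n
    rw [← hPP n, ← e1, h, Polynomial.eval_zero]
  have n1' : ∀ n, ((N n).aeval ![Polynomial.X, Polynomial.C (P n 1)] * Polynomial.X : Polynomial ℂ) ≠ 0 :=
    fun n => mul_ne_zero (n1 n) Polynomial.X_ne_zero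
  obtain ⟨z, hz⟩ := all_unc _ (fun n => Polynomial.finite_setOfPred_isRoot (n1' n))
  have hz' : z ≠ 0 ∧ ∀ n, eval ![z, P n 1] (N n) ≠ 0 := by
    have h0 : ∀ n, ((N n).aeval ![Polynomial.X, Polynomial.C (P n 1)] * Polynomial.X :
        Polynomial ℂ).eval z ≠ 0 := fun n h => hz n h
    constructor
    · rintro rfl
      apply h0 0
      rw [Polynomial.eval_mul, Polynomial.eval_X, mul_zero]
    · intro n h
      apply h0 n
      rw [Polynomial.eval_mul, e1, h, zero_mul]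
  have n2 : ∀ n, ((N n).aeval ![Polynomial.C z, Polynomial.X] : Polynomial ℂ) ≠ 0 := by
    intro n h
    apply hz'.2 n
    rw [← e2, h, Polynomial.eval_zero]
  obtain ⟨x, hx⟩ := all_unc _ (fun n => Polynomial.finite_setOfPred_isRoot (n2 n))
  refine ⟨z, x, hz'.1, fun n h => hx n ?_⟩
  show ((N n).aeval ![Polynomial.C z, Polynomial.X] : Polynomial ℂ).eval x = 0
  rw [e2]
  exact h

/-- the double plane polynomial of `surfLow` -/
def allQ (e : ℕ) (A B : ℂ) : Polynomial (Polynomial ℂ) :=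
  Polynomial.X ^ 3 + Polynomial.C (Polynomial.C A * Polynomial.X ^ 4) * Polynomial.X +
    Polynomial.C (Polynomial.C B * Polynomial.X ^ 6 + Polynomial.X ^ e)

lemma allQ_deg (e : ℕ) (A B : ℂ) : (allQ e A B).natDegree = 3 := by
  unfold allQ
  compute_degree!

lemma allQ_eval (e : ℕ) (A B z x : ℂ) : ((allQ e A B).map (Polynomial.evalRingHom z)).eval x =
    x ^ 3 + A * x * z ^ 4 + B * z ^ 6 + z ^ e := by
  unfold allQ
  simp
  ring

def allG (e : ℕ) (A B : ℂ) : MvPolynomial (Fin 3) ℂ :=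
  X 2 ^ 2 - (X 1 ^ 3 + C A * X 1 * X 0 ^ 4 + C B * X 0 ^ 6 + X 0 ^ e)

lemma all_low (hDOM : ST_DOM) (e : ℕ) (A B : ℂ)
    (H : ∀ g : ℕ → MvPolynomial (Fin 3) ℂ, (∀ n, ∃ P ∈ surfLow e A B, eval P (g n) ≠ 0) →
    ∃ f : Fin 3 → LaurentPolynomial ℂ, IsGm (surfLow e A B) f ∧ ∀ n, ∃ s : ℂˣ, eval (val f s) (g n) ≠ 0) :
    DominatedByGm (surfLow e A B) := by
  refine hDOM _ (allG e A B) ![X 0, X 1 * X 2] (fun P => ?_) H
  constructor
  · rintro ⟨h1, h2⟩
    refine ⟨?_, ?_⟩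
    · simp only [allG, map_sub, map_add, map_mul, map_pow, eval_X, eval_C]
      rw [h1, sub_self]
    · by_contra hcon
      push Not at hcon
      apply h2
      have h3 := hcon 0
      have h4 := hcon 1
      simp at h3 h4
      refine ⟨h3, ?_⟩
      rcases h4 with h4 | h4
      · rw [h4, zero_mul]
      · rw [h4, mul_zero]
  · rintro ⟨h1, i, hi⟩
    refine ⟨?_, ?_⟩
    · simp only [allG, map_sub, map_add, map_mul, map_pow, eval_X, eval_C] at h1
      linear_combination h1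
    · rintro ⟨h2, h3⟩
      apply hi
      fin_cases i
      · simpa using h2
      · simpa using h3

lemma all_lowM (hDOM : ST_DOM) (hDEN : ST_DEN) (hNRM : ST_NRM) (e : ℕ) (A B : ℂ)
    (hM : Many 2 (surfLow e A B)) : DominatedByGm (surfLow e A B) := by
  apply all_low hDOM
  intro g hg
  refine all_gen hDEN hNRM 2 (by norm_num) _ hM (allQ e A B) 1 one_ne_zero
    (by rw [allQ_deg]; decide) ?_ ?_ g hg
  · rintro P ⟨h1, -⟩
    rw [allQ_eval, Polynomial.eval_one, one_mul, h1]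
  · rintro g h P ⟨h1, h2⟩
    apply h P
    · rw [Polynomial.eval_one]; exact one_ne_zero
    · rw [allQ_eval, Polynomial.eval_one, one_mul, h1]

lemma all_one (hDOM : ST_DOM) (hNRM : ST_NRM) (hONE : ST_ONE) (A B : ℂ) : DominatedByGm (surfLow 5 A B) := by
  apply all_low hDOM
  intro g hg
  have h1 : ∀ n, ∃ N : MvPolynomial (Fin 2) ℂ, N ≠ 0 ∧ ∀ P : Fin 3 → ℂ,
      (1 : Polynomial ℂ).eval (P 0) * P 2 ^ 2 = ((allQ 5 A B).map (Polynomial.evalRingHom (P 0))).eval (P 1) →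
      eval P (g n) = 0 → eval ![P 0, P 1] N = 0 := by
    intro n
    rcases hNRM (allQ 5 A B) 1 one_ne_zero (by rw [allQ_deg]; decide) (g n) with h | h
    · exact h
    · exfalso
      obtain ⟨P, ⟨hP1, hP2⟩, hP'⟩ := hg n
      apply hP'
      apply h P
      · rw [Polynomial.eval_one]; exact one_ne_zero
      · rw [allQ_eval, Polynomial.eval_one, one_mul, hP1]
  choose N hN0 hN using h1
  obtain ⟨z, x, hz, hzx⟩ := all_avoid N hN0
  obtain ⟨y, hy⟩ := IsAlgClosed.exists_pow_nat_eq (x ^ 3 + A * x * z ^ 4 + B * z ^ 6 + z ^ 5)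
    (n := 2) (by norm_num)
  have hP : (![z, x, y] : Fin 3 → ℂ) ∈ surfLow 5 A B := ⟨hy, fun h => hz h.1⟩
  obtain ⟨f, hf, s, hs⟩ := hONE A B _ hP
  refine ⟨f, hf, fun n => ⟨s, ?_⟩⟩
  rw [hs]
  intro h
  apply hzx n
  refine hN n ![z, x, y] ?_ h
  rw [allQ_eval, Polynomial.eval_one, one_mul]
  exact hy

/-- the double plane polynomial of `surfEight` -/
def allQ8 (A B : ℂ) : Polynomial (Polynomial ℂ) :=
  Polynomial.C Polynomial.X * Polynomial.X ^ 3 + Polynomial.C (Polynomial.C A * Polynomial.X ^ 3) * Polynomial.X +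
    Polynomial.C (Polynomial.C B * Polynomial.X ^ 4 + 1)

lemma allQ8_deg (A B : ℂ) : (allQ8 A B).natDegree = 3 := by
  unfold allQ8
  compute_degree!

lemma allQ8_eval (A B z x : ℂ) : ((allQ8 A B).map (Polynomial.evalRingHom z)).eval x =
    z * (x ^ 3 + A * x * z ^ 2 + B * z ^ 3) + 1 := by
  unfold allQ8
  simp
  ring

lemma all_eight (hDOM : ST_DOM) (hDEN : ST_DEN) (hNRM : ST_NRM) (A B : ℂ)
    (hM : Many 1 (surfEight A B)) : DominatedByGm (surfEight A B) := by
  refine hDOM _ (X 2 ^ 2 - (X 0 * (X 1 ^ 3 + C A * X 1 * X 0 ^ 2 + C B * X 0 ^ 3) + 1)) ![X 0, X 1]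
    (fun P => ?_) ?_
  · constructor
    · rintro ⟨h1, h2⟩
      refine ⟨?_, ?_⟩
      · simp only [map_sub, map_add, map_mul, map_pow, eval_X, eval_C, map_one]
        rw [h1, sub_self]
      · by_contra hcon
        push Not at hcon
        apply h2
        have h3 := hcon 0
        have h4 := hcon 1
        simp at h3 h4
        exact ⟨h3, h4⟩
    · rintro ⟨h1, i, hi⟩
      refine ⟨?_, ?_⟩
      · simp only [map_sub, map_add, map_mul, map_pow, eval_X, eval_C, map_one] at h1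
        linear_combination h1
      · rintro ⟨h2, h3⟩
        apply hi
        fin_cases i
        · simpa using h2
        · simpa using h3
  · intro g hg
    refine all_gen hDEN hNRM 1 le_rfl _ hM (allQ8 A B) 1 one_ne_zero
      (by rw [allQ8_deg]; decide) ?_ ?_ g hg
    · rintro P ⟨h1, -⟩
      rw [allQ8_eval, Polynomial.eval_one, one_mul, h1]
    · rintro g h P ⟨h1, h2⟩
      apply h P
      · rw [Polynomial.eval_one]; exact one_ne_zero
      · rw [allQ8_eval, Polynomial.eval_one, one_mul, h1]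

/-- the double plane polynomial of `surfNine` -/
def allQ9 (A B : ℂ) : Polynomial (Polynomial ℂ) :=
  Polynomial.X ^ 3 + Polynomial.C (Polynomial.C A * Polynomial.X ^ 2) * Polynomial.X +
    Polynomial.C (Polynomial.C B * Polynomial.X ^ 3 + 1)

lemma allQ9_deg (A B : ℂ) : (allQ9 A B).natDegree = 3 := by
  unfold allQ9
  compute_degree!

lemma allQ9_eval (A B z x : ℂ) : ((allQ9 A B).map (Polynomial.evalRingHom z)).eval x =
    x ^ 3 + A * x * z ^ 2 + B * z ^ 3 + 1 := by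
  unfold allQ9
  simp
  ring

lemma all_nine (hDOM : ST_DOM) (hDEN : ST_DEN) (hNRM : ST_NRM) (hNIN : ST_NIN) (A B : ℂ)
    (hM : Many 1 (surfNine A B)) : DominatedByGm (surfNine A B) := by
  refine hDOM _ (X 0 * X 2 ^ 2 - (X 1 ^ 3 + C A * X 1 * X 0 ^ 2 + C B * X 0 ^ 3 + 1)) ![1, 1]
    (fun P => ?_) ?_
  · constructor
    · intro h1
      have h1' : P 0 * P 2 ^ 2 = P 1 ^ 3 + A * P 1 * P 0 ^ 2 + B * P 0 ^ 3 + 1 := h1
      refine ⟨?_, 0, ?_⟩
      · simp only [map_sub, map_add, map_mul, map_pow, eval_X, eval_C, map_one]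
        rw [h1', sub_self]
      · simp
    · rintro ⟨h1, -⟩
      simp only [map_sub, map_add, map_mul, map_pow, eval_X, eval_C, map_one] at h1
      show P 0 * P 2 ^ 2 = P 1 ^ 3 + A * P 1 * P 0 ^ 2 + B * P 0 ^ 3 + 1
      linear_combination h1
  · intro g hg
    refine all_gen hDEN hNRM 1 le_rfl _ hM (allQ9 A B) Polynomial.X Polynomial.X_ne_zero
      (by rw [allQ9_deg]; decide) ?_ ?_ g hg
    · intro P h1
      rw [allQ9_eval, Polynomial.eval_X]
      exact h1
    · intro g h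
      apply hNIN A B g
      intro P hP hP0
      apply h P
      · rw [Polynomial.eval_X]; exact hP0
      · rw [allQ9_eval, Polynomial.eval_X]
        exact hP

theorem st_ALL (hDOM : ST_DOM) (hDEN : ST_DEN) (hNRM : ST_NRM) (hNIN : ST_NIN)
    (hEV1 : ST_EV1) (hEV2 : ST_EV2) (hEV3 : ST_EV3) (hTH : ST_TH) (hFI : ST_FI) (hONE : ST_ONE)
    (hEI : ST_EI) (hNI : ST_NI) : ST_ALL := by
  intro A B hAB
  refine ⟨fun e he => ?_, all_eight hDOM hDEN hNRM A B (hEI A B hAB),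
    all_nine hDOM hDEN hNRM hNIN A B (hNI A B hAB)⟩
  interval_cases e
  · exact all_lowM hDOM hDEN hNRM 0 A B (hEV3 A B hAB)
  · exact all_lowM hDOM hDEN hNRM 1 A B (hFI A B hAB)
  · exact all_lowM hDOM hDEN hNRM 2 A B (hEV2 A B hAB)
  · exact all_lowM hDOM hDEN hNRM 3 A B (hTH A B hAB)
  · exact all_lowM hDOM hDEN hNRM 4 A B (hEV1 A B hAB)
  · exact all_one hDOM hNRM hONE A B

end

end Pool.Agent.Helper48.KM
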