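import Pool.Agent.Helper48.KM.Stmts

set_option autoImplicit false

namespace Pool.Agent.Helper48.KM

open Polynomial

noncomputable section

theorem st_BZ : ST_BZ := by
  intro f g h
  obtain ⟨n, F, hF⟩ := LaurentPolynomial.exists_T_pow f
  obtain ⟨m, G, hG⟩ := LaurentPolynomial.exists_T_pow g
  have eF : ∀ s : ℂˣ, F.eval (s : ℂ) = LaurentPolynomial.eval₂ (RingHom.id ℂ) s f * (s : ℂ) ^ n := by
    intro s
    rw [← LaurentPolynomial.eval₂_T_n (RingHom.id ℂ) s n, ← map_mul, ← hF, LaurentPolynomial.eval₂_toLaurent,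
      Polynomial.eval₂_id]
  have eG : ∀ s : ℂˣ, G.eval (s : ℂ) = LaurentPolynomial.eval₂ (RingHom.id ℂ) s g * (s : ℂ) ^ m := by
    intro s
    rw [← LaurentPolynomial.eval₂_T_n (RingHom.id ℂ) s m, ← map_mul, ← hG, LaurentPolynomial.eval₂_toLaurent,
      Polynomial.eval₂_id]
  set D : ℂ[X] := EuclideanDomain.gcd F G with hD
  have hDF : D ∣ F := EuclideanDomain.gcd_dvd_left F G
  have hDG : D ∣ G := EuclideanDomain.gcd_dvd_right F G
  have hroot : ∀ r : ℂ, r ≠ 0 → D.eval r ≠ 0 := by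
    intro r hr h0
    have h1 : F.eval r = 0 := eval_eq_zero_of_dvd_of_eval_eq_zero hDF h0
    have h2 : G.eval r = 0 := eval_eq_zero_of_dvd_of_eval_eq_zero hDG h0
    have h3 := eF (Units.mk0 r hr)
    have h4 := eG (Units.mk0 r hr)
    rw [Units.val_mk0] at h3 h4
    rw [h1] at h3
    rw [h2] at h4
    rcases h (Units.mk0 r hr) with h5 | h5
    · exact (mul_ne_zero h5 (pow_ne_zero _ hr)) h3.symm
    · exact (mul_ne_zero h5 (pow_ne_zero _ hr)) h4.symm
  have hD0 : D ≠ 0 := by
    intro h0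
    apply hroot 1 one_ne_zero
    rw [h0, eval_zero]
  obtain ⟨E, hE, hE0⟩ := Polynomial.exists_eq_pow_rootMultiplicity_mul_and_not_dvd D hD0 0
  set k : ℕ := D.rootMultiplicity 0 with hk
  rw [C_0, sub_zero] at hE hE0
  have hEdeg : E.degree = 0 := by
    by_contra hdeg
    obtain ⟨r, hr⟩ := IsAlgClosed.exists_root E hdeg
    have hr0 : r ≠ 0 := by
      rintro rfl
      apply hE0
      rw [X_dvd_iff, coeff_zero_eq_eval_zero]
      exact hr
    apply hroot r hr0
    rw [hE, eval_mul, hr.eq_zero, mul_zero]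
  obtain ⟨a, ha⟩ : ∃ a : ℂ, E = C a := ⟨_, eq_C_of_degree_eq_zero hEdeg⟩
  have ha0 : a ≠ 0 := by
    rintro rfl
    rw [ha, C_0, mul_zero] at hE
    exact hD0 hE
  have hbez : D = F * EuclideanDomain.gcdA F G + G * EuclideanDomain.gcdB F G :=
    EuclideanDomain.gcd_eq_gcd_ab F G
  refine ⟨LaurentPolynomial.C a⁻¹ * LaurentPolynomial.T (-(k : ℤ)) * LaurentPolynomial.T n *
      toLaurent (EuclideanDomain.gcdA F G),
    LaurentPolynomial.C a⁻¹ * LaurentPolynomial.T (-(k : ℤ)) * LaurentPolynomial.T m *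
      toLaurent (EuclideanDomain.gcdB F G), ?_⟩
  have h1 : toLaurent D = LaurentPolynomial.T k * LaurentPolynomial.C a := by
    rw [hE, ha, map_mul, toLaurent_X_pow, toLaurent_C]
  have h2 : toLaurent D = f * LaurentPolynomial.T n * toLaurent (EuclideanDomain.gcdA F G) +
      g * LaurentPolynomial.T m * toLaurent (EuclideanDomain.gcdB F G) := by
    rw [hbez, map_add, map_mul, map_mul, hF, hG]
  have h3 : (LaurentPolynomial.C a⁻¹ : LaurentPolynomial ℂ) * LaurentPolynomial.C a = 1 := by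
    rw [← map_mul, inv_mul_cancel₀ ha0, map_one]
  have h4 : (LaurentPolynomial.T (-(k : ℤ)) : LaurentPolynomial ℂ) * LaurentPolynomial.T k = 1 := by
    rw [← LaurentPolynomial.T_add, neg_add_cancel, LaurentPolynomial.T_zero]
  calc _ = LaurentPolynomial.C a⁻¹ * LaurentPolynomial.T (-(k : ℤ)) *
        (f * LaurentPolynomial.T n * toLaurent (EuclideanDomain.gcdA F G) +
      g * LaurentPolynomial.T m * toLaurent (EuclideanDomain.gcdB F G)) := by ring
    _ = LaurentPolynomial.C a⁻¹ * LaurentPolynomial.T (-(k : ℤ)) *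
        (LaurentPolynomial.T k * LaurentPolynomial.C a) := by rw [← h2, h1]
    _ = (LaurentPolynomial.C a⁻¹ * LaurentPolynomial.C a) *
        (LaurentPolynomial.T (-(k : ℤ)) * LaurentPolynomial.T k) := by ring
    _ = 1 := by rw [h3, h4, mul_one]

end

end Pool.Agent.Helper48.KM
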