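import Pool.Agent.Helper48.KM.Stmts

set_option autoImplicit false

namespace Pool.Agent.Helper48.KM

open Polynomial

noncomputable section

/-- the homogeneous identity in Tate normal form -/
lemma fi_hom (σ k c b L a1 xn yn a2 rq rp : ℂ)
    (hc : c = (σ - 1) * k)
    (hb : b = k ^ 2 * (4 * σ ^ 2 - 6 * σ + 1) / 4 + k * (σ - 1))
    (hL : L = 1 + 2 * σ ^ 2 * k)
    (h1 : a1 = 1 - (σ - 1) * k + (1 + 2 * σ ^ 2 * k))
    (hx : xn = -((σ - 1) * k) ^ 2 - 3 / 2 * ((σ - 1) * k) * ((2 - σ) * k) + ((σ - 1) * k) -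
      ((2 - σ) * k) ^ 2 / 2)
    (hy : yn = 9 / 2 * ((σ - 1) * k) ^ 3 + 21 / 4 * ((σ - 1) * k) ^ 2 * ((2 - σ) * k) +
      9 / 4 * ((σ - 1) * k) ^ 2 + 2 * ((σ - 1) * k) * ((2 - σ) * k) ^ 2
      + 3 / 2 * ((σ - 1) * k) * ((2 - σ) * k) + ((2 - σ) * k) ^ 3 / 4 + ((2 - σ) * k) ^ 2 / 4)
    (h2 : a2 = -b - L * (c + 1) + 3 * xn)
    (hq : rq = -1 - σ * k) (hp : rp = -1 - k * (2 * σ - 1) ^ 2 / 2) :
    (xn + rq ^ 2 + a1 * rq - a2 = b) ∧ ∀ R U : ℂ,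
    (yn * U ^ 3 + R * (R ^ 2 + a1 * R * U - a2 * U ^ 2)) ^ 2 +
      (1 - c) * (xn * U ^ 2 + (R ^ 2 + a1 * R * U - a2 * U ^ 2)) *
        (yn * U ^ 3 + R * (R ^ 2 + a1 * R * U - a2 * U ^ 2)) * U -
      b * (yn * U ^ 3 + R * (R ^ 2 + a1 * R * U - a2 * U ^ 2)) * U ^ 3 -
      (xn * U ^ 2 + (R ^ 2 + a1 * R * U - a2 * U ^ 2)) ^ 3 +
      b * (xn * U ^ 2 + (R ^ 2 + a1 * R * U - a2 * U ^ 2)) ^ 2 * U ^ 2 =
      -L * ((R - rq * U) ^ 3 * (R - rp * U) ^ 2) * U := by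
  subst h2
  subst hc
  subst hb
  subst hL
  subst h1
  subst hx
  subst hy
  subst hq
  subst hp
  refine ⟨by ring, fun R U => by ring⟩

/-- change of coordinates to the Tate normal form -/
lemma fi_E (A B x0 y0 m0 u b c x y U : ℂ) (h1 : y0 ^ 2 = x0 ^ 3 + A * x0 + B)
    (h2 : 2 * m0 * y0 = 3 * x0 ^ 2 + A) (h3 : 2 * m0 = (1 - c) * u)
    (h4 : m0 ^ 2 - 3 * x0 = b * u ^ 2) (h5 : 2 * y0 = -b * u ^ 3) :
    (u ^ 3 * y + m0 * u ^ 2 * x * U + y0 * U ^ 3) ^ 2 - (u ^ 2 * x + x0 * U ^ 2) ^ 3 -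
      A * (u ^ 2 * x + x0 * U ^ 2) * U ^ 4 - B * U ^ 6 =
      u ^ 6 * (y ^ 2 + (1 - c) * x * y * U - b * y * U ^ 3 - x ^ 3 + b * x ^ 2 * U ^ 2) := by
  linear_combination (u ^ 5 * x * y * U) * h3 + (u ^ 4 * x ^ 2 * U ^ 2) * h4 +
    (u ^ 3 * y * U ^ 3) * h5 + (u ^ 2 * x * U ^ 4) * h2 + U ^ 6 * h1

lemma fi_val (p : ℂ[X]) (n : ℕ) (s : ℂˣ) :
    LaurentPolynomial.eval₂ (RingHom.id ℂ) s
      (toLaurent p * LaurentPolynomial.T (-(n : ℤ))) = p.eval (s : ℂ) * ((s : ℂ)⁻¹) ^ n := by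
  rw [map_mul, LaurentPolynomial.eval₂_toLaurent, LaurentPolynomial.eval₂_T_neg_n,
    Polynomial.eval₂_id, Units.val_inv_eq_inv_val]

lemma fi_mk (A B x0 y0 m0 u b c L a1 xn yn a2 rq rp κ : ℂ) (h1 : y0 ^ 2 = x0 ^ 3 + A * x0 + B)
    (h2 : 2 * m0 * y0 = 3 * x0 ^ 2 + A) (h3 : 2 * m0 = (1 - c) * u)
    (h4 : m0 ^ 2 - 3 * x0 = b * u ^ 2) (h5 : 2 * y0 = -b * u ^ 3)
    (hlim : xn + rq ^ 2 + a1 * rq - a2 = b)
    (hH : ∀ R U : ℂ, (yn * U ^ 3 + R * (R ^ 2 + a1 * R * U - a2 * U ^ 2)) ^ 2 +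
      (1 - c) * (xn * U ^ 2 + (R ^ 2 + a1 * R * U - a2 * U ^ 2)) *
        (yn * U ^ 3 + R * (R ^ 2 + a1 * R * U - a2 * U ^ 2)) * U -
      b * (yn * U ^ 3 + R * (R ^ 2 + a1 * R * U - a2 * U ^ 2)) * U ^ 3 -
      (xn * U ^ 2 + (R ^ 2 + a1 * R * U - a2 * U ^ 2)) ^ 3 +
      b * (xn * U ^ 2 + (R ^ 2 + a1 * R * U - a2 * U ^ 2)) ^ 2 * U ^ 2 =
      -L * ((R - rq * U) ^ 3 * (R - rp * U) ^ 2) * U)
    (hκ : κ ^ 5 * (-(L * u ^ 6 * (rq - rp) ^ 5)) = 1) :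
    ∃ f : Fin 3 → LaurentPolynomial ℂ, IsGm (surfLow 1 A B) f ∧ Lim 2 f (m0 ^ 2 - 2 * x0) := by
  have hκ0 : κ ≠ 0 := by
    rintro rfl
    rw [zero_pow (by norm_num), zero_mul] at hκ
    exact zero_ne_one hκ
  have hr0 : rq - rp ≠ 0 := by
    intro h
    rw [h, zero_pow (by norm_num), mul_zero, neg_zero, mul_zero] at hκ
    exact zero_ne_one hκ
  have hu0 : u ≠ 0 := by
    intro h
    rw [h, zero_pow (by norm_num), mul_zero, zero_mul, neg_zero, mul_zero] at hκ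
    exact zero_ne_one hκ
  set U : ℂ[X] := 1 - X ^ 5 with hU
  set Rp : ℂ[X] := C rq - C rp * X ^ 5 with hRp
  set W : ℂ[X] := Rp ^ 2 + C a1 * Rp * U - C a2 * U ^ 2 with hW
  set pz : ℂ[X] := C κ * U with hpz
  set px : ℂ[X] := C (κ ^ 2) * (C (u ^ 2) * (C xn * U ^ 2 + W) + C x0 * U ^ 2) with hpx
  set py : ℂ[X] := C (κ ^ 3) * (C (u ^ 3) * (C yn * U ^ 3 + Rp * W) +
    C (m0 * u ^ 2) * (C xn * U ^ 2 + W) * U + C y0 * U ^ 3) with hpy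
  have eW : ∀ t : ℂ, W.eval t = (rq - rp * t ^ 5) ^ 2 + a1 * (rq - rp * t ^ 5) * (1 - t ^ 5) -
      a2 * (1 - t ^ 5) ^ 2 := by
    intro t; simp [hW, hU, hRp]
  have ez : ∀ t : ℂ, pz.eval t = κ * (1 - t ^ 5) := by
    intro t; simp [hpz, hU]
  have ex : ∀ t : ℂ, px.eval t =
      κ ^ 2 * (u ^ 2 * (xn * (1 - t ^ 5) ^ 2 + W.eval t) + x0 * (1 - t ^ 5) ^ 2) := by
    intro t; simp [hpx, hU]
  have ey : ∀ t : ℂ, py.eval t = κ ^ 3 * (u ^ 3 * (yn * (1 - t ^ 5) ^ 3 +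
      (rq - rp * t ^ 5) * W.eval t) + m0 * u ^ 2 * (xn * (1 - t ^ 5) ^ 2 + W.eval t) * (1 - t ^ 5) +
      y0 * (1 - t ^ 5) ^ 3) := by
    intro t; simp [hpy, hU, hRp]
  set f : Fin 3 → LaurentPolynomial ℂ := ![toLaurent pz * LaurentPolynomial.T (-((3 : ℕ) : ℤ)),
    toLaurent px * LaurentPolynomial.T (-((6 : ℕ) : ℤ)),
    toLaurent py * LaurentPolynomial.T (-((9 : ℕ) : ℤ))] with hf
  have vz : ∀ s : ℂˣ, val f s 0 = κ * (1 - (s : ℂ) ^ 5) * ((s : ℂ)⁻¹) ^ 3 := by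
    intro s
    rw [← ez]
    exact fi_val pz 3 s
  have vx : ∀ s : ℂˣ, val f s 1 = κ ^ 2 * (u ^ 2 * (xn * (1 - (s : ℂ) ^ 5) ^ 2 + W.eval (s : ℂ)) +
      x0 * (1 - (s : ℂ) ^ 5) ^ 2) * ((s : ℂ)⁻¹) ^ 6 := by
    intro s
    rw [← ex]
    exact fi_val px 6 s
  have vy : ∀ s : ℂˣ, val f s 2 = κ ^ 3 * (u ^ 3 * (yn * (1 - (s : ℂ) ^ 5) ^ 3 +
      (rq - rp * (s : ℂ) ^ 5) * W.eval (s : ℂ)) + m0 * u ^ 2 * (xn * (1 - (s : ℂ) ^ 5) ^ 2 +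
      W.eval (s : ℂ)) * (1 - (s : ℂ) ^ 5) + y0 * (1 - (s : ℂ) ^ 5) ^ 3) * ((s : ℂ)⁻¹) ^ 9 := by
    intro s
    rw [← ey]
    exact fi_val py 9 s
  refine ⟨f, ⟨fun s => ⟨?_, ?_⟩, ?_⟩, ?_⟩
  · have hs : (s : ℂ) ≠ 0 := s.ne_zero
    rw [vz, vx, vy, eW]
    set t : ℂ := (s : ℂ) with ht
    have hc := hH (rq - rp * t ^ 5) (1 - t ^ 5)
    have hE := fi_E A B x0 y0 m0 u b c (xn * (1 - t ^ 5) ^ 2 + ((rq - rp * t ^ 5) ^ 2 +
      a1 * (rq - rp * t ^ 5) * (1 - t ^ 5) - a2 * (1 - t ^ 5) ^ 2)) (yn * (1 - t ^ 5) ^ 3 +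
      (rq - rp * t ^ 5) * ((rq - rp * t ^ 5) ^ 2 +
      a1 * (rq - rp * t ^ 5) * (1 - t ^ 5) - a2 * (1 - t ^ 5) ^ 2)) (1 - t ^ 5) h1 h2 h3 h4 h5
    rw [hc] at hE
    have e1 : rq - rp * t ^ 5 - rq * (1 - t ^ 5) = (rq - rp) * t ^ 5 := by ring
    have e2 : rq - rp * t ^ 5 - rp * (1 - t ^ 5) = rq - rp := by ring
    rw [e1, e2] at hE
    have hti : t * t⁻¹ = 1 := mul_inv_cancel₀ hs
    set w : ℂ := t⁻¹ with hw
    set T : ℂ := t ^ 5 with hT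
    have e3 : T ^ 3 * w ^ 18 = w ^ 3 := by
      calc T ^ 3 * w ^ 18 = (t * w) ^ 15 * w ^ 3 := by rw [hT]; ring
        _ = w ^ 3 := by rw [hti, one_pow, one_mul]
    set Q : ℂ := (rq - rp * T) ^ 2 + a1 * (rq - rp * T) * (1 - T) - a2 * (1 - T) ^ 2 with hQ
    linear_combination (κ ^ 6 * w ^ 18) * hE +
      (κ ^ 6 * (-L * u ^ 6 * (rq - rp) ^ 5) * (1 - T)) * e3 +
      (κ * (1 - T) * w ^ 3) * hκ
  · rintro ⟨hz, hxy⟩
    have hs : (s : ℂ) ≠ 0 := s.ne_zero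
    rw [vz] at hz
    have hs5 : (s : ℂ) ^ 5 = 1 := by
      rcases mul_eq_zero.1 hz with h4 | h4
      · rcases mul_eq_zero.1 h4 with h5 | h5
        · exact absurd h5 hκ0
        · exact (sub_eq_zero.1 h5).symm
      · exact absurd h4 (pow_ne_zero _ (inv_ne_zero hs))
    rw [vx, vy, eW, hs5] at hxy
    have hi := inv_ne_zero hs
    rcases mul_eq_zero.1 hxy with h4 | h4
    · rcases mul_eq_zero.1 h4 with h5 | h5
      · have h6 : κ ^ 2 * (u ^ 2 * (rq - rp) ^ 2) = 0 := by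
          rw [← h5]; ring
        exact (mul_ne_zero (pow_ne_zero _ hκ0) (mul_ne_zero (pow_ne_zero _ hu0)
          (pow_ne_zero _ hr0))) h6
      · exact absurd h5 (pow_ne_zero _ hi)
    · rcases mul_eq_zero.1 h4 with h5 | h5
      · have h6 : κ ^ 3 * (u ^ 3 * (rq - rp) ^ 3) = 0 := by
          rw [← h5]; ring
        exact (mul_ne_zero (pow_ne_zero _ hκ0) (mul_ne_zero (pow_ne_zero _ hu0)
          (pow_ne_zero _ hr0))) h6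
      · exact absurd h5 (pow_ne_zero _ hi)
  · refine ⟨1, Units.mk0 2 (by norm_num), fun h => ?_⟩
    have h4 := congrFun h 0
    rw [vz, vz, Units.val_one, Units.val_mk0] at h4
    have h5 : κ * (31 / 8) = 0 := by
      have : κ * (1 - 1 ^ 5) * (1 : ℂ)⁻¹ ^ 3 - κ * (1 - 2 ^ 5) * (2 : ℂ)⁻¹ ^ 3 = 0 := by
        rw [h4, sub_self]
      rw [← this]; norm_num; ring
    rcases mul_eq_zero.1 h5 with h6 | h6
    · exact hκ0 h6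
    · norm_num at h6
  · refine ⟨3, pz, px, by norm_num, ?_, ?_, fun s => ⟨?_, ?_⟩⟩
    · rw [ez]; simpa using hκ0
    · rw [ez, ex, eW]
      linear_combination (κ ^ 2 * u ^ 2) * hlim - κ ^ 2 * h4
    · have hs : (s : ℂ) ≠ 0 := s.ne_zero
      rw [vz, ez, mul_assoc, inv_pow, inv_mul_cancel₀ (pow_ne_zero _ hs), mul_one]
    · have hs : (s : ℂ) ≠ 0 := s.ne_zero
      rw [vx, ex, mul_assoc, inv_pow, inv_mul_cancel₀ (pow_ne_zero _ hs), mul_one]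

/-- from the Tate parameters `b, c` to the parameters `σ, k` -/
lemma fi_par (b c : ℂ) (hc0 : c ≠ 0) (hbc : b ≠ c) (h6 : c ^ 2 + c - b ≠ 0) (h8 : c ≠ -1 / 8) :
    ∃ σ k : ℂ, c = (σ - 1) * k ∧ b = k ^ 2 * (4 * σ ^ 2 - 6 * σ + 1) / 4 + k * (σ - 1) ∧
      1 + 2 * σ ^ 2 * k ≠ 0 ∧ (-1 - σ * k) - (-1 - k * (2 * σ - 1) ^ 2 / 2) ≠ 0 := by
  obtain ⟨w, hw⟩ := IsAlgClosed.exists_pow_nat_eq (5 * c ^ 2 + 4 * c - 4 * b) (n := 2) (by norm_num)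
  have main : ∀ v : ℂ, v ^ 2 = 5 * c ^ 2 + 4 * c - 4 * b → c + v + 2 * (2 * c + v) ^ 2 ≠ 0 →
      ∃ σ k : ℂ, c = (σ - 1) * k ∧ b = k ^ 2 * (4 * σ ^ 2 - 6 * σ + 1) / 4 + k * (σ - 1) ∧
      1 + 2 * σ ^ 2 * k ≠ 0 ∧ (-1 - σ * k) - (-1 - k * (2 * σ - 1) ^ 2 / 2) ≠ 0 := by
    intro v hv hL
    have hk : c + v ≠ 0 := by
      intro h
      apply h6
      have hv' : v = -c := by linear_combination h
      rw [hv'] at hv
      linear_combination (-1 / 4 : ℂ) * hv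
    refine ⟨(2 * c + v) / (c + v), c + v, ?_, ?_, ?_, ?_⟩
    · field_simp
      ring
    · have e1 : (c + v) ^ 2 * (4 * ((2 * c + v) / (c + v)) ^ 2 - 6 * ((2 * c + v) / (c + v)) + 1) / 4 +
          (c + v) * ((2 * c + v) / (c + v) - 1) =
          (4 * (2 * c + v) ^ 2 - 6 * (2 * c + v) * (c + v) + (c + v) ^ 2) / 4 + c := by
        field_simp
        ring
      rw [e1]
      linear_combination (1 / 4 : ℂ) * hv
    · intro h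
      apply hL
      have e1 : (1 + 2 * ((2 * c + v) / (c + v)) ^ 2 * (c + v)) * (c + v) =
          c + v + 2 * (2 * c + v) ^ 2 := by
        field_simp
      rw [← e1, h, zero_mul]
    · intro h
      apply hbc
      have e1 : ((-1 - (2 * c + v) / (c + v) * (c + v)) -
          (-1 - (c + v) * (2 * ((2 * c + v) / (c + v)) - 1) ^ 2 / 2)) * (c + v) =
          (5 * c ^ 2 - v ^ 2) / 2 := by
        field_simp
        ring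
      rw [h, zero_mul] at e1
      linear_combination (1 / 4 : ℂ) * hv - (1 / 2 : ℂ) * e1
  by_cases hL : c + w + 2 * (2 * c + w) ^ 2 = 0
  · by_cases hL' : c + (-w) + 2 * (2 * c + (-w)) ^ 2 = 0
    · exfalso
      have h1 : w * (1 + 8 * c) = 0 := by linear_combination (1 / 2 : ℂ) * hL - (1 / 2 : ℂ) * hL'
      rcases mul_eq_zero.1 h1 with h2 | h2
      · rw [h2] at hL
        have h3 : c * (c + 1 / 8) = 0 := by linear_combination (1 / 8 : ℂ) * hL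
        rcases mul_eq_zero.1 h3 with h4 | h4
        · exact hc0 h4
        · exact h8 (by linear_combination h4)
      · exact h8 (by linear_combination (1 / 8 : ℂ) * h2)
    · exact main (-w) (by rw [neg_sq]; exact hw) hL'
  · exact main w hw hL

lemma fi_n1 (A B : ℂ) (h : ∀ x : ℂ, (x ^ 3 + A * x + B) = 0) : False := by
  have h1 : (6 : ℂ) = 0 := by
    linear_combination (-1 : ℂ) * h 0 + (3 : ℂ) * h 1 + (-3 : ℂ) * h 2 + (1 : ℂ) * h 3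
  norm_num at h1

lemma fi_n3 (A B : ℂ) (h : ∀ x : ℂ, (12 * x * (x ^ 3 + A * x + B) - (3 * x ^ 2 + A) ^ 2) = 0) : False := by
  have h1 : (72 : ℂ) = 0 := by
    linear_combination (1 : ℂ) * h 0 + (-4 : ℂ) * h 1 + (6 : ℂ) * h 2 + (-4 : ℂ) * h 3 + (1 : ℂ) * h 4
  norm_num at h1

lemma fi_n4 (A B : ℂ) (h : ∀ x : ℂ, (8 * (x ^ 3 + A * x + B) ^ 2 - (3 * x ^ 2 + A) * (12 * x * (x ^ 3 + A * x + B) - (3 * x ^ 2 + A) ^ 2)) = 0) : False := by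
  have h1 : (-720 : ℂ) = 0 := by
    linear_combination (1 : ℂ) * h 0 + (-6 : ℂ) * h 1 + (15 : ℂ) * h 2 + (-20 : ℂ) * h 3 + (15 : ℂ) * h 4 + (-6 : ℂ) * h 5 + (1 : ℂ) * h 6
  norm_num at h1

lemma fi_n5 (A B : ℂ) (h : ∀ x : ℂ, (12 * x * (x ^ 3 + A * x + B) - (3 * x ^ 2 + A) ^ 2) ^ 3 + 32 * (x ^ 3 + A * x + B) ^ 2 * (8 * (x ^ 3 + A * x + B) ^ 2 - (3 * x ^ 2 + A) * (12 * x * (x ^ 3 + A * x + B) - (3 * x ^ 2 + A) ^ 2)) = 0) : False := by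
  have h1 : (-2395008000 : ℂ) = 0 := by
    linear_combination (1 : ℂ) * h 0 + (-12 : ℂ) * h 1 + (66 : ℂ) * h 2 + (-220 : ℂ) * h 3 + (495 : ℂ) * h 4 + (-792 : ℂ) * h 5 + (924 : ℂ) * h 6 + (-792 : ℂ) * h 7 + (495 : ℂ) * h 8 + (-220 : ℂ) * h 9 + (66 : ℂ) * h 10 + (-12 : ℂ) * h 11 + (1 : ℂ) * h 12
  norm_num at h1

lemma fi_n6 (A B : ℂ) (h : ∀ x : ℂ, 4 * (8 * (x ^ 3 + A * x + B) ^ 2 - (3 * x ^ 2 + A) * (12 * x * (x ^ 3 + A * x + B) - (3 * x ^ 2 + A) ^ 2)) ^ 2 + 32 * (x ^ 3 + A * x + B) ^ 2 * (8 * (x ^ 3 + A * x + B) ^ 2 - (3 * x ^ 2 + A) * (12 * x * (x ^ 3 + A * x + B) - (3 * x ^ 2 + A) ^ 2)) + (12 * x * (x ^ 3 + A * x + B) - (3 * x ^ 2 + A) ^ 2) ^ 3 = 0) : False := by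
  have h1 : (-479001600 : ℂ) = 0 := by
    linear_combination (1 : ℂ) * h 0 + (-12 : ℂ) * h 1 + (66 : ℂ) * h 2 + (-220 : ℂ) * h 3 + (495 : ℂ) * h 4 + (-792 : ℂ) * h 5 + (924 : ℂ) * h 6 + (-792 : ℂ) * h 7 + (495 : ℂ) * h 8 + (-220 : ℂ) * h 9 + (66 : ℂ) * h 10 + (-12 : ℂ) * h 11 + (1 : ℂ) * h 12
  norm_num at h1

lemma fi_nf (A B ξ : ℂ) (h : ∀ x : ℂ, (3 * x ^ 2 + A) ^ 2 - 8 * x * (x ^ 3 + A * x + B) - 4 * ξ * (x ^ 3 + A * x + B) = 0) : False := by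
  have h1 : (24 : ℂ) = 0 := by
    linear_combination (1 : ℂ) * h 0 + (-4 : ℂ) * h 1 + (6 : ℂ) * h 2 + (-4 : ℂ) * h 3 + (1 : ℂ) * h 4
  norm_num at h1

theorem st_FI (hunc : ST_UNC) : ST_FI := by
  intro A B hAB hcount
  -- polynomial conditions
  obtain ⟨ph2, E1⟩ : ∃ p : ℂ[X], ∀ x : ℂ, p.eval x = (x ^ 3 + A * x + B) := 
    ⟨X ^ 3 + C A * X + C B, by intro x; simp⟩
  obtain ⟨dp, E2⟩ : ∃ p : ℂ[X], ∀ x : ℂ, p.eval x = 3 * x ^ 2 + A := 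
    ⟨C 3 * X ^ 2 + C A, by intro x; simp⟩
  obtain ⟨T3, E3⟩ : ∃ p : ℂ[X], ∀ x : ℂ, p.eval x = (12 * x * (x ^ 3 + A * x + B) - (3 * x ^ 2 + A) ^ 2) := 
    ⟨C 12 * X * ph2 - dp ^ 2, by intro x; simp [E1, E2]⟩
  obtain ⟨T4, E4⟩ : ∃ p : ℂ[X], ∀ x : ℂ, p.eval x = (8 * (x ^ 3 + A * x + B) ^ 2 - (3 * x ^ 2 + A) * (12 * x * (x ^ 3 + A * x + B) - (3 * x ^ 2 + A) ^ 2)) := 
    ⟨C 8 * ph2 ^ 2 - dp * T3, by intro x; simp [E1, E2, E3]⟩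
  obtain ⟨T5, E5⟩ : ∃ p : ℂ[X], ∀ x : ℂ, p.eval x = (12 * x * (x ^ 3 + A * x + B) - (3 * x ^ 2 + A) ^ 2) ^ 3 + 32 * (x ^ 3 + A * x + B) ^ 2 * (8 * (x ^ 3 + A * x + B) ^ 2 - (3 * x ^ 2 + A) * (12 * x * (x ^ 3 + A * x + B) - (3 * x ^ 2 + A) ^ 2)) := 
    ⟨T3 ^ 3 + C 32 * ph2 ^ 2 * T4, by intro x; simp [E1, E3, E4]⟩
  obtain ⟨T6, E6⟩ : ∃ p : ℂ[X], ∀ x : ℂ, p.eval x = 4 * (8 * (x ^ 3 + A * x + B) ^ 2 - (3 * x ^ 2 + A) * (12 * x * (x ^ 3 + A * x + B) - (3 * x ^ 2 + A) ^ 2)) ^ 2 + 32 * (x ^ 3 + A * x + B) ^ 2 * (8 * (x ^ 3 + A * x + B) ^ 2 - (3 * x ^ 2 + A) * (12 * x * (x ^ 3 + A * x + B) - (3 * x ^ 2 + A) ^ 2)) + (12 * x * (x ^ 3 + A * x + B) - (3 * x ^ 2 + A) ^ 2) ^ 3 := 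
    ⟨C 4 * T4 ^ 2 + C 32 * ph2 ^ 2 * T4 + T3 ^ 3, by intro x; simp [E1, E3, E4]⟩
  set T8 : ℂ[X] := C (-(3 * A)) * X ^ 4 + C (-(18 * B)) * X ^ 3 + C (6 * A ^ 2) * X ^ 2 +
    C (6 * A * B) * X + C (9 * B ^ 2 + A ^ 3) with hT8
  have E8 : ∀ x : ℂ, T8.eval x = (8 * (x ^ 3 + A * x + B) ^ 2 - (3 * x ^ 2 + A) * (12 * x * (x ^ 3 + A * x + B) - (3 * x ^ 2 + A) ^ 2)) + (x ^ 3 + A * x + B) ^ 2 := by
    intro x
    simp [hT8]
    ring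
  have n1 : ph2 ≠ 0 := by
    intro h
    exact fi_n1 A B (fun x => by rw [← E1, h, eval_zero])
  have n3 : T3 ≠ 0 := by
    intro h
    exact fi_n3 A B (fun x => by rw [← E3, h, eval_zero])
  have n4 : T4 ≠ 0 := by
    intro h
    exact fi_n4 A B (fun x => by rw [← E4, h, eval_zero])
  have n5 : T5 ≠ 0 := by
    intro h
    exact fi_n5 A B (fun x => by rw [← E5, h, eval_zero])
  have n6 : T6 ≠ 0 := by
    intro h
    exact fi_n6 A B (fun x => by rw [← E6, h, eval_zero])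
  have n8 : T8 ≠ 0 := by
    intro h
    have h4 : T8.coeff 4 = 0 := by rw [h, coeff_zero]
    have h3 : T8.coeff 3 = 0 := by rw [h, coeff_zero]
    simp only [hT8, coeff_add, coeff_C_mul, coeff_X_pow, coeff_X, coeff_C] at h3 h4
    norm_num at h3 h4
    rcases hAB with h5 | h5
    · exact h5 h4
    · exact h5 h3
  set S : Set ℂ := {x | ph2.eval x ≠ 0 ∧ T3.eval x ≠ 0 ∧ T4.eval x ≠ 0 ∧ T5.eval x ≠ 0 ∧
    T6.eval x ≠ 0 ∧ T8.eval x ≠ 0} with hS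
  have hfin : Sᶜ.Finite := by
    have hP : ph2 * T3 * T4 * T5 * T6 * T8 ≠ 0 :=
      mul_ne_zero (mul_ne_zero (mul_ne_zero (mul_ne_zero (mul_ne_zero n1 n3) n4) n5) n6) n8
    refine Set.Finite.subset (Polynomial.finite_setOfPred_isRoot hP) ?_
    intro x hx
    show (ph2 * T3 * T4 * T5 * T6 * T8).eval x = 0
    rw [eval_mul, eval_mul, eval_mul, eval_mul, eval_mul]
    by_contra hne
    apply hx
    refine ⟨?_, ?_, ?_, ?_, ?_, ?_⟩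
    · intro h; apply hne; rw [h]; ring
    · intro h; apply hne; rw [h]; ring
    · intro h; apply hne; rw [h]; ring
    · intro h; apply hne; rw [h]; ring
    · intro h; apply hne; rw [h]; ring
    · intro h; apply hne; rw [h]; ring
  refine hunc S (fun x => (3 * x ^ 2 + A) ^ 2 / (4 * (x ^ 3 + A * x + B)) - 2 * x) hfin
    (fun ξ => ?_) ?_
  · obtain ⟨P, hP⟩ : ∃ p : ℂ[X], ∀ x : ℂ, p.eval x = (3 * x ^ 2 + A) ^ 2 - 8 * x * (x ^ 3 + A * x + B) - 4 * ξ * (x ^ 3 + A * x + B) := 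
      ⟨dp ^ 2 - C 8 * X * ph2 - C 4 * C ξ * ph2, by intro x; simp [E1, E2]⟩
    have hP0 : P ≠ 0 := by
      intro h
      exact fi_nf A B ξ (fun x => by rw [← hP, h, eval_zero])
    refine Set.Finite.subset (Polynomial.finite_setOfPred_isRoot hP0) ?_
    rintro x ⟨hx, hxi⟩
    show P.eval x = 0
    rw [hP]
    have h1 := hx.1
    rw [E1] at h1
    have h2 : (3 * x ^ 2 + A) ^ 2 / (4 * (x ^ 3 + A * x + B)) - 2 * x = ξ := hxi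
    have h3 : (3 * x ^ 2 + A) ^ 2 / (4 * (x ^ 3 + A * x + B)) * (4 * (x ^ 3 + A * x + B)) = (3 * x ^ 2 + A) ^ 2 :=
      div_mul_cancel₀ _ (mul_ne_zero (by norm_num) h1)
    linear_combination (4 * (x ^ 3 + A * x + B)) * h2 - h3
  · refine hcount.mono ?_
    rintro ξ ⟨x0, ⟨g1, g3, g4, g5, g6, g8⟩, rfl⟩
    rw [E1] at g1
    rw [E3] at g3
    rw [E4] at g4
    rw [E5] at g5
    rw [E6] at g6
    rw [E8] at g8
    obtain ⟨y0, hy⟩ := IsAlgClosed.exists_pow_nat_eq (x0 ^ 3 + A * x0 + B) (n := 2) (by norm_num)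
    have hy0 : y0 ≠ 0 := by
      rintro rfl
      rw [zero_pow (by norm_num)] at hy
      exact g1 hy.symm
    obtain ⟨m0, hm⟩ : ∃ m : ℂ, 2 * m * y0 = 3 * x0 ^ 2 + A := ⟨(3 * x0 ^ 2 + A) / (2 * y0), by
      field_simp⟩
    set F : ℂ := x0 ^ 3 + A * x0 + B with hF
    set t3 : ℂ := 12 * x0 * F - (3 * x0 ^ 2 + A) ^ 2 with ht3
    set t4 : ℂ := 8 * F ^ 2 - (3 * x0 ^ 2 + A) * t3 with ht4
    have k2 : 4 * F * (3 * x0 - m0 ^ 2) = t3 := by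
      rw [ht3, ← hm, ← hy]
      ring
    set a2 : ℂ := 3 * x0 - m0 ^ 2 with ha2
    have ha20 : a2 ≠ 0 := by
      intro h
      rw [h, mul_zero] at k2
      exact g3 k2.symm
    have kc : (1 - m0 * a2 / y0) * (8 * F ^ 2) = t4 := by
      rw [ht4, ← k2, ← hm, ← hy]
      field_simp
      ring
    have kb : (-a2 ^ 3 / (4 * y0 ^ 2)) * (256 * F ^ 4) = -t3 ^ 3 := by
      rw [← k2, ← hy]
      field_simp
      ring
    set c : ℂ := 1 - m0 * a2 / y0 with hc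
    set b : ℂ := -a2 ^ 3 / (4 * y0 ^ 2) with hb
    have hc0 : c ≠ 0 := by
      intro h
      rw [h, zero_mul] at kc
      exact g4 kc.symm
    have hbc : b ≠ c := by
      intro h
      apply g5
      rw [h] at kb
      linear_combination (-(32 * F ^ 2)) * kc + kb
    have h6 : c ^ 2 + c - b ≠ 0 := by
      intro h
      apply g6
      linear_combination (256 * F ^ 4) * h + (-(4 * t4) - 32 * F ^ 2 * c - 32 * F ^ 2) * kc + kb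
    have h8 : c ≠ -1 / 8 := by
      intro h
      apply g8
      rw [h] at kc
      linear_combination -kc
    obtain ⟨σ, k, p1, p2, p3, p4⟩ := fi_par b c hc0 hbc h6 h8
    obtain ⟨hlim, hH⟩ := fi_hom σ k c b (1 + 2 * σ ^ 2 * k) _ _ _ _ _ _ p1 p2 rfl rfl rfl rfl rfl rfl rfl
    have hu0 : 2 * y0 / a2 ≠ 0 := div_ne_zero (mul_ne_zero (by norm_num) hy0) ha20
    obtain ⟨κ, hκ⟩ := IsAlgClosed.exists_pow_nat_eq
      (1 / (-((1 + 2 * σ ^ 2 * k) * (2 * y0 / a2) ^ 6 *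
        ((-1 - σ * k) - (-1 - k * (2 * σ - 1) ^ 2 / 2)) ^ 5))) (n := 5) (by norm_num)
    obtain ⟨f, hf1, hf2⟩ := fi_mk A B x0 y0 m0 (2 * y0 / a2) b c (1 + 2 * σ ^ 2 * k) _ _ _ _ _ _ κ
      hy hm (by rw [hc]; field_simp; ring) (by rw [hb, ha2]; field_simp; ring)
      (by rw [hb]; field_simp; ring) hlim hH (by
        rw [hκ]
        exact one_div_mul_cancel (neg_ne_zero.2 (mul_ne_zero (mul_ne_zero p3 (pow_ne_zero _ hu0))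
          (pow_ne_zero _ p4))))
    refine ⟨f, hf1, ?_⟩
    have hξ : (3 * x0 ^ 2 + A) ^ 2 / (4 * F) - 2 * x0 = m0 ^ 2 - 2 * x0 := by
      rw [← hm, ← hy]
      field_simp
      ring
    show Lim 2 f ((3 * x0 ^ 2 + A) ^ 2 / (4 * F) - 2 * x0)
    rw [hξ]
    exact hf2

end

end Pool.Agent.Helper48.KM
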