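import Mathlib

namespace Pool.Agent.Helper48.KM.E8C

section Basic

open MvPolynomial

/-- The polynomial `z³ + a x⁴ z + x⁵ + c x⁶ - w²` in the variables `x = X 0`, `z = X 1`, `w = X 2`. -/
noncomputable def F (a c : ℂ) : MvPolynomial (Fin 3) ℂ :=
  X 1 ^ 3 + C a * X 0 ^ 4 * X 1 + X 0 ^ 5 + C c * X 0 ^ 6 - X 2 ^ 2

/-- The set of nonsingular points of the affine surface `F a c = 0` in `ℂ³`. -/
def U (a c : ℂ) : Set (Fin 3 → ℂ) :=
  {P | eval P (F a c) = 0 ∧ ∃ i : Fin 3, eval P (pderiv i (F a c)) ≠ 0}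

/-- The value at `t ∈ ℂˣ` of a triple of Laurent polynomials. -/
noncomputable def valueAt (f : Fin 3 → LaurentPolynomial ℂ) (t : ℂˣ) : Fin 3 → ℂ :=
  fun i => LaurentPolynomial.eval₂ (RingHom.id ℂ) t (f i)

/-- `f` is a non-constant morphism from the multiplicative group to the locally closed set `V`. -/
def IsNonconstantGmMorphism (V : Set (Fin 3 → ℂ)) (f : Fin 3 → LaurentPolynomial ℂ) : Prop :=
  (∀ t : ℂˣ, valueAt f t ∈ V) ∧ ∃ s t : ℂˣ, valueAt f s ≠ valueAt f t

lemma evalF (a c : ℂ) (P : Fin 3 → ℂ) :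
    eval P (F a c) = P 1 ^ 3 + a * P 0 ^ 4 * P 1 + P 0 ^ 5 + c * P 0 ^ 6 - P 2 ^ 2 := by
  simp [F]

lemma pd0 (a c : ℂ) (P : Fin 3 → ℂ) :
    eval P (pderiv 0 (F a c)) = 4 * a * P 0 ^ 3 * P 1 + 5 * P 0 ^ 4 + 6 * c * P 0 ^ 5 := by
  simp [F, pderiv_X, Derivation.leibniz, Derivation.leibniz_pow]
  ring

lemma pd1 (a c : ℂ) (P : Fin 3 → ℂ) :
    eval P (pderiv 1 (F a c)) = 3 * P 1 ^ 2 + a * P 0 ^ 4 := by
  simp [F, pderiv_X, Derivation.leibniz, Derivation.leibniz_pow]

lemma pd2 (a c : ℂ) (P : Fin 3 → ℂ) :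
    eval P (pderiv 2 (F a c)) = - (2 * P 2) := by
  simp [F, pderiv_X, Derivation.leibniz, Derivation.leibniz_pow]

lemma mem_U_iff (a c : ℂ) (P : Fin 3 → ℂ) :
    P ∈ U a c ↔ P 2 ^ 2 = P 1 ^ 3 + a * P 0 ^ 4 * P 1 + P 0 ^ 5 + c * P 0 ^ 6 ∧
      (P 0 ≠ 0 ∨ P 1 ≠ 0) := by
  constructor
  · rintro ⟨h0, i, hi⟩
    rw [evalF] at h0
    have h1 : P 2 ^ 2 = P 1 ^ 3 + a * P 0 ^ 4 * P 1 + P 0 ^ 5 + c * P 0 ^ 6 := by
      linear_combination -h0
    refine ⟨h1, ?_⟩
    by_contra hcon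
    push Not at hcon
    obtain ⟨hx, hz⟩ := hcon
    have hw : P 2 = 0 := by
      have : P 2 ^ 2 = 0 := by rw [h1, hx, hz]; ring
      exact pow_eq_zero_iff (two_ne_zero) |>.1 this
    fin_cases i
    · apply hi; show eval P (pderiv 0 (F a c)) = 0; rw [pd0, hx]; ring
    · apply hi; show eval P (pderiv 1 (F a c)) = 0; rw [pd1, hx, hz]; ring
    · apply hi; show eval P (pderiv 2 (F a c)) = 0; rw [pd2, hw]; ring
  · rintro ⟨h1, h2⟩
    refine ⟨by rw [evalF]; linear_combination -h1, ?_⟩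
    by_contra hcon
    push Not at hcon
    have e0 := hcon 0
    have e1 := hcon 1
    have e2 := hcon 2
    rw [pd0] at e0
    rw [pd1] at e1
    rw [pd2] at e2
    have hw : P 2 = 0 := by linear_combination (-1/2 : ℂ) * e2
    have hx5 : P 0 ^ 5 = 0 := by
      linear_combination (-6 : ℂ) * h1 - P 0 * e0 - 2 * P 1 * e1 + 6 * P 2 * hw
    have hx : P 0 = 0 := pow_eq_zero_iff (by norm_num) |>.1 hx5
    have hz : P 1 = 0 := by
      have : 3 * P 1 ^ 2 = 0 := by rw [← e1, hx]; ring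
      have h3 : P 1 ^ 2 = 0 := by
        have h3 : (3 : ℂ) ≠ 0 := by norm_num
        exact (mul_eq_zero.1 this).resolve_left h3
      exact pow_eq_zero_iff (two_ne_zero) |>.1 h3
    rcases h2 with h | h
    · exact h hx
    · exact h hz

end Basic

lemma exists_root_N (α E Z : ℂ) (h : E ^ 2 + 4 * α ^ 3 ≠ 0) :
    ∃ N : ℂ, N ≠ 0 ∧ N + α ≠ 0 ∧
      (E ^ 2 - (N + 2 * α) ^ 2 * (5 * N + α)) ^ 2
        + (N + α) * (Z * N ^ 2 - 2 * E * (5 * N + 2 * α)) ^ 2 = 0 := by
  have hroot : ∃ N : ℂ, 25 * N ^ 6 + (210 * α + Z ^ 2) * N ^ 5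
      + (681 * α ^ 2 - 20 * E * Z + α * Z ^ 2) * N ^ 4
      + (90 * E ^ 2 + 1048 * α ^ 3 - 28 * α * E * Z) * N ^ 3
      + (138 * α * E ^ 2 + 744 * α ^ 4 - 8 * α ^ 2 * E * Z) * N ^ 2
      + (48 * α ^ 2 * E ^ 2 + 192 * α ^ 5) * N + (E ^ 2 + 4 * α ^ 3) ^ 2 = 0 := by
    let p : Polynomial ℂ := Polynomial.C 25 * Polynomial.X ^ 6
      + Polynomial.C (210 * α + Z ^ 2) * Polynomial.X ^ 5
      + Polynomial.C (681 * α ^ 2 - 20 * E * Z + α * Z ^ 2) * Polynomial.X ^ 4
      + Polynomial.C (90 * E ^ 2 + 1048 * α ^ 3 - 28 * α * E * Z) * Polynomial.X ^ 3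
      + Polynomial.C (138 * α * E ^ 2 + 744 * α ^ 4 - 8 * α ^ 2 * E * Z) * Polynomial.X ^ 2
      + Polynomial.C (48 * α ^ 2 * E ^ 2 + 192 * α ^ 5) * Polynomial.X
      + Polynomial.C ((E ^ 2 + 4 * α ^ 3) ^ 2)
    have hdeg : p.natDegree = 6 := by
      simp only [p]
      compute_degree!
    have hd : 0 < p.degree := by
      rw [← Polynomial.natDegree_pos_iff_degree_pos, hdeg]
      norm_num
    obtain ⟨N, hN⟩ := Complex.exists_root hd
    refine ⟨N, ?_⟩
    simpa [p, Polynomial.IsRoot] using hN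
  obtain ⟨N, hN⟩ := hroot
  have key : (E ^ 2 - (N + 2 * α) ^ 2 * (5 * N + α)) ^ 2
        + (N + α) * (Z * N ^ 2 - 2 * E * (5 * N + 2 * α)) ^ 2 = 0 := by
    linear_combination hN
  refine ⟨N, ?_, ?_, key⟩
  · rintro rfl
    apply h
    have : (E ^ 2 + 4 * α ^ 3) ^ 2 = 0 := by linear_combination hN
    exact pow_eq_zero_iff (two_ne_zero) |>.1 this
  · intro h0
    apply h
    have hNa : N = -α := by linear_combination h0
    have : (E ^ 2 + 4 * α ^ 3) ^ 2 = 0 := by
      rw [hNa] at key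
      linear_combination key
    exact pow_eq_zero_iff (two_ne_zero) |>.1 this

/-- parameters -/
lemma exists_param (a Y Z : ℂ) (h : 4 * a ^ 3 + 27 * Y ^ 2 ≠ 0) :
    ∃ ρ B : ℂ, ρ ≠ 0 ∧ B ≠ 0 ∧ a = -432 * ρ ^ 4 * B ^ 2 * (B ^ 2 + 1) ∧
      ∃ y : ℂ, Y = -1728 * ρ ^ 6 * B ^ 3 * (y + (9 * B - 2 * B ^ 3)) ∧
        Z = ρ ^ 2 * (y ^ 2 + 12 * B * y + 12 * B ^ 2 - 4) := by
  obtain ⟨N, hN0, hNα, hN⟩ := exists_root_N (a / 432) (Y / 1728) Z (by
    intro h0
    apply h
    linear_combination (1728 ^ 2 * 27 : ℂ) * h0)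
  obtain ⟨H, hH⟩ := IsAlgClosed.exists_pow_nat_eq N (n := 2) (by norm_num)
  obtain ⟨B₀, hB₀⟩ := IsAlgClosed.exists_pow_nat_eq (-(N + a / 432) / N) (n := 2) (by norm_num)
  have hH0 : H ≠ 0 := by
    rintro rfl
    apply hN0
    rw [← hH]; ring
  have hB00 : B₀ ≠ 0 := by
    rintro rfl
    have : -(N + a / 432) / N = 0 := by rw [← hB₀]; ring
    rcases div_eq_zero_iff.1 this with h1 | h1
    · exact hNα (by linear_combination -h1)
    · exact hN0 h1
  -- the equation up to sign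
  have hsq : (B₀ * (Z * N ^ 2 - 2 * (Y / 1728) * (5 * N + 2 * (a / 432))) * H) ^ 2
      = ((Y / 1728) ^ 2 - (N + 2 * (a / 432)) ^ 2 * (5 * N + a / 432)) ^ 2 := by
    have e1 : B₀ ^ 2 * N = -(N + a / 432) := by
      rw [hB₀]; field_simp
    calc (B₀ * (Z * N ^ 2 - 2 * (Y / 1728) * (5 * N + 2 * (a / 432))) * H) ^ 2
        = (B₀ ^ 2 * H ^ 2) * (Z * N ^ 2 - 2 * (Y / 1728) * (5 * N + 2 * (a / 432))) ^ 2 := by ring
      _ = (B₀ ^ 2 * N) * (Z * N ^ 2 - 2 * (Y / 1728) * (5 * N + 2 * (a / 432))) ^ 2 := by rw [hH]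
      _ = _ := by rw [e1]; linear_combination -hN
  have hex : ∃ B : ℂ, B ≠ 0 ∧ B ^ 2 = -(N + a / 432) / N ∧
      B * (Z * N ^ 2 - 2 * (Y / 1728) * (5 * N + 2 * (a / 432))) * H
      = (Y / 1728) ^ 2 - (N + 2 * (a / 432)) ^ 2 * (5 * N + a / 432) := by
    rcases sq_eq_sq_iff_eq_or_eq_neg.1 hsq with h1 | h1
    · exact ⟨B₀, hB00, hB₀, h1⟩
    · exact ⟨-B₀, neg_ne_zero.2 hB00, by rw [neg_sq, hB₀], by linear_combination -h1⟩
  obtain ⟨B, hB0, hB2, hBeq⟩ := hex
  obtain ⟨ρ, hρ⟩ := IsAlgClosed.exists_pow_nat_eq (H / B) (n := 2) (by norm_num)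
  have hρ0 : ρ ≠ 0 := by
    rintro rfl
    have : H / B = 0 := by rw [← hρ]; ring
    rcases div_eq_zero_iff.1 this with h1 | h1
    · exact hH0 h1
    · exact hB0 h1
  have hρB : ρ ^ 2 * B = H := by rw [hρ]; field_simp
  have hB2N : B ^ 2 * H ^ 2 = -(H ^ 2 + a / 432) := by
    rw [hB2, hH]; field_simp
  have ha : a = -432 * ρ ^ 4 * B ^ 2 * (B ^ 2 + 1) := by
    have : -432 * ρ ^ 4 * B ^ 2 * (B ^ 2 + 1) = -432 * (ρ ^ 2 * B) ^ 2 * (B ^ 2 + 1) := by ring
    rw [this, hρB]
    linear_combination (432 : ℂ) * hB2N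
  refine ⟨ρ, B, hρ0, hB0, ha, -(Y / (1728 * H ^ 3)) - (9 * B - 2 * B ^ 3), ?_, ?_⟩
  · have : -1728 * ρ ^ 6 * B ^ 3 = -1728 * (ρ ^ 2 * B) ^ 3 := by ring
    rw [this, hρB]
    field_simp
    ring
  · set e : ℂ := Y / (1728 * H ^ 3) with he
    have heH : e * H ^ 3 = Y / 1728 := by
      rw [he]; field_simp
    have hne : B * H ^ 5 ≠ 0 := mul_ne_zero hB0 (pow_ne_zero _ hH0)
    apply mul_left_cancel₀ hne
    have e1 : B * H ^ 5 * (ρ ^ 2 * ((-e - (9 * B - 2 * B ^ 3)) ^ 2
          + 12 * B * (-e - (9 * B - 2 * B ^ 3)) + 12 * B ^ 2 - 4))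
        = (ρ ^ 2 * B) * H ^ 5 * (e ^ 2 + 2 * e * B * (3 - 2 * B ^ 2)
            + (2 * B ^ 2 + 1) ^ 2 * (B ^ 2 - 4)) := by ring
    have e2 : H * H ^ 5 * (e ^ 2 + 2 * e * B * (3 - 2 * B ^ 2)
            + (2 * B ^ 2 + 1) ^ 2 * (B ^ 2 - 4))
        = (e * H ^ 3) ^ 2 + 2 * (e * H ^ 3) * B * H * (3 * H ^ 2 - 2 * (B ^ 2 * H ^ 2))
          + (2 * (B ^ 2 * H ^ 2) + H ^ 2) ^ 2 * ((B ^ 2 * H ^ 2) - 4 * H ^ 2) := by ring
    rw [e1, hρB, e2, heH, hB2N]
    rw [← hH] at hBeq
    linear_combination hBeq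

open LaurentPolynomial in
/-- parametrisation of the conic -/
lemma conic (l m x₀ v₀ : ℂ) (hl : l ≠ 0) (h : v₀ ^ 2 = (1 - m * x₀) ^ 2 - 4 * l ^ 2 * x₀ ^ 2) :
    ∃ X V : LaurentPolynomial ℂ,
      (∀ t : ℂˣ, (eval₂ (RingHom.id ℂ) t V) ^ 2
        = (1 - m * eval₂ (RingHom.id ℂ) t X) ^ 2 - 4 * l ^ 2 * (eval₂ (RingHom.id ℂ) t X) ^ 2) ∧
      (∃ s t : ℂˣ, eval₂ (RingHom.id ℂ) s X ≠ eval₂ (RingHom.id ℂ) t X) ∧
      ∃ t : ℂˣ, eval₂ (RingHom.id ℂ) t X = x₀ ∧ eval₂ (RingHom.id ℂ) t V = v₀ := by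
  by_cases hd : m ^ 2 - 4 * l ^ 2 = 0
  · have hm : m ≠ 0 := by
      rintro rfl
      apply hl
      have : l ^ 2 = 0 := by linear_combination (-1/4 : ℂ) * hd
      exact pow_eq_zero_iff (two_ne_zero) |>.1 this
    refine ⟨C (1 / (2 * m)) * (1 - (T 1 + C (v₀ - 1)) ^ 2), T 1 + C (v₀ - 1), ?_, ?_, ?_⟩
    · intro t
      simp only [map_mul, map_sub, map_add, map_pow, map_one, eval₂_C, eval₂_T, RingHom.id_apply,
        zpow_one]
      field_simp
      linear_combination (-(1 - ((t : ℂ) + (v₀ - 1)) ^ 2) ^ 2) * hd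
    · by_contra hcon
      push Not at hcon
      have h2 := hcon 1 (Units.mk0 2 two_ne_zero)
      have h3 := hcon 1 (Units.mk0 3 three_ne_zero)
      simp only [map_mul, map_sub, map_add, map_pow, map_one, eval₂_C, eval₂_T, RingHom.id_apply,
        zpow_one, Units.val_one, Units.val_mk0] at h2 h3
      field_simp at h2 h3
      have : (2 : ℂ) = 0 := by linear_combination h3 - 2 * h2
      norm_num at this
    · refine ⟨1, ?_, ?_⟩
      · simp only [map_mul, map_sub, map_add, map_pow, map_one, eval₂_C, eval₂_T,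
          RingHom.id_apply, zpow_one, Units.val_one]
        field_simp
        linear_combination (-1 : ℂ) * h - x₀ ^ 2 * hd
      · simp only [map_add, map_sub, map_one, eval₂_C, eval₂_T, RingHom.id_apply, zpow_one,
          Units.val_one]
        ring
  · obtain ⟨d, hd2⟩ := IsAlgClosed.exists_pow_nat_eq (m ^ 2 - 4 * l ^ 2) (n := 2) (by norm_num)
    have hd0 : d ≠ 0 := by
      rintro rfl
      apply hd
      rw [← hd2]; ring
    set T₀ : ℂ := v₀ + d * x₀ with hT₀
    have hT : T₀ ^ 2 - 1 = 2 * x₀ * (d * T₀ - m) := by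
      rw [hT₀]
      linear_combination h - x₀ ^ 2 * hd2
    have ht0 : d * T₀ - m ≠ 0 := by
      intro h0
      apply hl
      have h1 : T₀ ^ 2 = 1 := by
        rw [h0] at hT
        linear_combination hT
      have h2 : d ^ 2 = m ^ 2 := by
        have : (d * T₀) ^ 2 = m ^ 2 := by
          have : d * T₀ = m := by linear_combination h0
          rw [this]
        rw [mul_pow, h1, mul_one] at this
        exact this
      have : l ^ 2 = 0 := by linear_combination (-1/4 : ℂ) * h2 + (1/4 : ℂ) * hd2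
      exact pow_eq_zero_iff (two_ne_zero) |>.1 this
    refine ⟨C (1 / (2 * d ^ 2)) * (T 1 + C (2 * m) + C (4 * l ^ 2) * T (-1)),
      C (1 / (2 * d)) * (T 1 - C (4 * l ^ 2) * T (-1)), ?_, ?_, ?_⟩
    · intro t
      have ht : (t : ℂ) ≠ 0 := t.ne_zero
      simp only [map_mul, map_sub, map_add, map_pow, map_one, eval₂_C, eval₂_T, RingHom.id_apply,
        zpow_one, zpow_neg, Units.val_inv_eq_inv_val]
      field_simp
      have hl2 : 4 * l ^ 2 = m ^ 2 - d ^ 2 := by rw [hd2]; ring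
      rw [hl2]
      ring
    · by_contra hcon
      push Not at hcon
      have h2 := hcon 1 (Units.mk0 2 two_ne_zero)
      have h3 := hcon 1 (Units.mk0 (-1) (by norm_num))
      simp only [map_mul, map_sub, map_add, map_pow, map_one, eval₂_C, eval₂_T, RingHom.id_apply,
        zpow_one, Units.val_one, Units.val_mk0, zpow_neg, Units.val_inv_eq_inv_val] at h2 h3
      field_simp at h2 h3
      have : (6 : ℂ) = 0 := by linear_combination h3 - 2 * h2
      norm_num at this
    · refine ⟨Units.mk0 _ ht0, ?_, ?_⟩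
      · simp only [map_mul, map_sub, map_add, map_pow, map_one, eval₂_C, eval₂_T,
          RingHom.id_apply, zpow_one, Units.val_mk0, zpow_neg, Units.val_inv_eq_inv_val]
        rw [div_mul_eq_mul_div, one_mul, div_eq_iff (mul_ne_zero two_ne_zero (pow_ne_zero 2 hd0))]
        rw [← sub_eq_zero]
        have : (d * T₀ - m) * (d * T₀ - m + 2 * m + 4 * l ^ 2 * (d * T₀ - m)⁻¹ - x₀ * (2 * d ^ 2)) = 0 := by
          have hinv : (d * T₀ - m) * (d * T₀ - m)⁻¹ = 1 := mul_inv_cancel₀ ht0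
          linear_combination 4 * l ^ 2 * hinv + d ^ 2 * hT + hd2
        exact (mul_eq_zero.1 this).resolve_left ht0
      · simp only [map_mul, map_sub, map_add, map_pow, map_one, eval₂_C, eval₂_T,
          RingHom.id_apply, zpow_one, Units.val_mk0, zpow_neg, Units.val_inv_eq_inv_val]
        rw [div_mul_eq_mul_div, one_mul, div_eq_iff (mul_ne_zero two_ne_zero hd0)]
        rw [← sub_eq_zero]
        have : (d * T₀ - m) * (d * T₀ - m - 4 * l ^ 2 * (d * T₀ - m)⁻¹ - v₀ * (2 * d)) = 0 := by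
          have hinv : (d * T₀ - m) * (d * T₀ - m)⁻¹ = 1 := mul_inv_cancel₀ ht0
          have hv : v₀ = T₀ - d * x₀ := by rw [hT₀]; ring
          rw [hv]
          linear_combination (-4) * l ^ 2 * hinv - d ^ 2 * hT - hd2
        exact (mul_eq_zero.1 this).resolve_left ht0

lemma surface_identity (κ l m B a c x v : ℂ)
    (hv : v ^ 2 = (1 - m * x) ^ 2 - 4 * l ^ 2 * x ^ 2)
    (h2 : -1728 * B ^ 3 * κ ^ 6 * l ^ 5 = 1)
    (hm : m = (9 * B - 2 * B ^ 3) * l - c)
    (ha : a = -432 * (κ * l) ^ 4 * B ^ 2 * (B ^ 2 + 1)) :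
    (κ ^ 3 * v * ((1 - m * x) ^ 2 + 18 * B * (l * x) * (1 - m * x)
        + (72 * B ^ 2 - 4) * (l * x) ^ 2)) ^ 2
      = (κ ^ 2 * ((1 - m * x) ^ 2 + 12 * B * (l * x) * (1 - m * x)
        + (12 * B ^ 2 - 4) * (l * x) ^ 2)) ^ 3
      + a * x ^ 4 * (κ ^ 2 * ((1 - m * x) ^ 2 + 12 * B * (l * x) * (1 - m * x)
        + (12 * B ^ 2 - 4) * (l * x) ^ 2)) + x ^ 5 + c * x ^ 6 := by
  have hc : c = (9 * B - 2 * B ^ 3) * l - m := by rw [hm]; ring
  rw [ha, hc]
  linear_combination (κ ^ 6 * ((1 - m * x) ^ 2 + 18 * B * (l * x) * (1 - m * x)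
        + (72 * B ^ 2 - 4) * (l * x) ^ 2) ^ 2) * hv
    + (x ^ 5 * (1 - m * x + (9 * B - 2 * B ^ 3) * l * x)) * h2

/-- Through every point of `U a c` there passes the image of a non-constant morphism
from the multiplicative group to `U a c`. -/
theorem result (a c : ℂ) (P : Fin 3 → ℂ) (hP : P ∈ U a c) :
    ∃ f : Fin 3 → LaurentPolynomial ℂ,
      IsNonconstantGmMorphism (U a c) f ∧ ∃ t : ℂˣ, valueAt f t = P := by
  obtain ⟨hS, hne⟩ := (mem_U_iff a c P).1 hP
  by_cases hx : P 0 = 0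
  · -- the cuspidal member through the singular point
    have hz : P 1 ≠ 0 := by
      rcases hne with h | h
      · exact absurd hx h
      · exact h
    have hS' : P 2 ^ 2 = P 1 ^ 3 := by rw [hS, hx]; ring
    have hw : P 2 ≠ 0 := by
      intro h0
      rw [h0] at hS'
      apply hz
      have : P 1 ^ 3 = 0 := by rw [← hS']; ring
      exact pow_eq_zero_iff (by norm_num) |>.1 this
    refine ⟨![0, LaurentPolynomial.T 2, LaurentPolynomial.T 3], ⟨?_, ?_⟩, ?_⟩
    · intro t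
      rw [mem_U_iff]
      have ht : (t : ℂ) ≠ 0 := t.ne_zero
      constructor
      · simp [valueAt, LaurentPolynomial.eval₂_T]
        norm_cast
        rw [← pow_mul, ← pow_mul]
      · right
        simp [valueAt, LaurentPolynomial.eval₂_T]
    · refine ⟨1, Units.mk0 2 two_ne_zero, ?_⟩
      intro h
      have h1 := congrFun h 1
      simp [valueAt, LaurentPolynomial.eval₂_T] at h1
      norm_cast at h1
    · refine ⟨Units.mk0 (P 2 / P 1) (div_ne_zero hw hz), ?_⟩
      funext i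
      fin_cases i
      · simp [valueAt, hx]
      · simp [valueAt, LaurentPolynomial.eval₂_T]
        norm_cast
        rw [div_pow, hS']
        field_simp
      · simp [valueAt, LaurentPolynomial.eval₂_T]
        norm_cast
        rw [div_pow]
        field_simp
        linear_combination hS'
  · -- `P 0 ≠ 0`
    by_cases hdisc : 4 * a ^ 3 + 27 * (1 / P 0 + c) ^ 2 = 0
    · -- singular member of the anticanonical pencil
      obtain ⟨m, hma, hmY⟩ : ∃ m : ℂ, a = -3 * m ^ 2 ∧ 1 / P 0 + c = 2 * m ^ 3 := by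
        by_cases ha : a = 0
        · refine ⟨0, by rw [ha]; ring, ?_⟩
          rw [ha] at hdisc
          have h1 : (1 / P 0 + c) ^ 2 = 0 := by linear_combination (1 / 27 : ℂ) * hdisc
          have h2 := pow_eq_zero_iff (two_ne_zero) |>.1 h1
          rw [h2]; ring
        · refine ⟨-3 * (1 / P 0 + c) / (2 * a), ?_, ?_⟩
          · field_simp
            field_simp at hdisc
            linear_combination hdisc
          · field_simp
            field_simp at hdisc
            linear_combination (P 0 * c + 1) * hdisc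
      obtain ⟨T₀, hT1, hT2⟩ : ∃ T₀ : ℂ, P 1 = P 0 ^ 2 * (T₀ ^ 2 - 2 * m) ∧
          P 2 = P 0 ^ 3 * (T₀ * (T₀ ^ 2 - 3 * m)) := by
        have key : (P 2) ^ 2 = (P 1 - m * P 0 ^ 2) ^ 2 * (P 1 + 2 * m * P 0 ^ 2) := by
          have hc : c = 2 * m ^ 3 - 1 / P 0 := by linear_combination hmY
          rw [hS, hma, hc]
          field_simp
          ring
        by_cases hm : P 1 - m * P 0 ^ 2 = 0
        · obtain ⟨T₀, hT₀⟩ := IsAlgClosed.exists_pow_nat_eq (3 * m) (n := 2) (by norm_num)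
          refine ⟨T₀, ?_, ?_⟩
          · rw [hT₀]; linear_combination hm
          · rw [hm] at key
            have : P 2 ^ 2 = 0 := by rw [key]; ring
            rw [pow_eq_zero_iff (two_ne_zero) |>.1 this, hT₀]; ring
        · obtain ⟨D, hD⟩ : ∃ D : ℂ, D = P 1 - m * P 0 ^ 2 := ⟨_, rfl⟩
          rw [← hD] at hm key
          have h1 : (P 2 / (P 0 * D)) ^ 2 = (P 1 + 2 * m * P 0 ^ 2) / P 0 ^ 2 := by
            rw [div_pow, key]
            field_simp
          refine ⟨P 2 / (P 0 * D), ?_, ?_⟩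
          · rw [h1]
            field_simp
            ring
          · rw [h1]
            field_simp
            linear_combination P 2 * hD
      refine ⟨![LaurentPolynomial.C (P 0),
        LaurentPolynomial.C (P 0 ^ 2) * ((LaurentPolynomial.T 1 + LaurentPolynomial.C (T₀ - 1)) ^ 2
          - LaurentPolynomial.C (2 * m)),
        LaurentPolynomial.C (P 0 ^ 3) * ((LaurentPolynomial.T 1 + LaurentPolynomial.C (T₀ - 1)) *
          ((LaurentPolynomial.T 1 + LaurentPolynomial.C (T₀ - 1)) ^ 2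
          - LaurentPolynomial.C (3 * m)))], ⟨?_, ?_⟩, ?_⟩
      · intro t
        rw [mem_U_iff]
        constructor
        · simp only [valueAt, Matrix.cons_val_one, Matrix.cons_val_zero, Matrix.cons_val_two,
            Matrix.tail_cons, Matrix.head_cons, Matrix.cons_val,
            map_mul, map_sub, map_add, map_pow, LaurentPolynomial.eval₂_C,
            LaurentPolynomial.eval₂_T, RingHom.id_apply, zpow_one]
          have hc : c = 2 * m ^ 3 - 1 / P 0 := by linear_combination hmY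
          rw [hma, hc]
          field_simp
          ring
        · left
          simpa [valueAt, LaurentPolynomial.eval₂_C] using hx
      · by_contra hcon
        push Not at hcon
        have h2 := congrFun (hcon 1 (Units.mk0 2 two_ne_zero)) 1
        have h3 := congrFun (hcon 1 (Units.mk0 3 three_ne_zero)) 1
        simp only [valueAt, Matrix.cons_val_one, Matrix.cons_val_zero, Matrix.head_cons,
          map_mul, map_sub, map_add, map_pow, LaurentPolynomial.eval₂_C,
          LaurentPolynomial.eval₂_T, RingHom.id_apply, zpow_one, Units.val_one,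
          Units.val_mk0] at h2 h3
        have hx2 : P 0 ^ 2 ≠ 0 := pow_ne_zero _ hx
        have h2' := mul_left_cancel₀ hx2 h2
        have h3' := mul_left_cancel₀ hx2 h3
        have : (2 : ℂ) = 0 := by linear_combination 2 * h2' - h3'
        norm_num at this
      · refine ⟨1, ?_⟩
        funext i
        fin_cases i
        · simp [valueAt, LaurentPolynomial.eval₂_C]
        · simp only [valueAt, Matrix.cons_val_one, Matrix.cons_val_zero, Matrix.head_cons,
            map_mul, map_sub, map_add, map_pow, LaurentPolynomial.eval₂_C,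
            LaurentPolynomial.eval₂_T, RingHom.id_apply, zpow_one, Units.val_one,
            Fin.mk_one]
          rw [hT1]; ring
        · simp only [valueAt, Matrix.cons_val_two, Matrix.tail_cons, Matrix.head_cons,
            map_mul, map_sub, map_add, map_pow, LaurentPolynomial.eval₂_C,
            LaurentPolynomial.eval₂_T, RingHom.id_apply, zpow_one, Units.val_one,
            Fin.reduceFinMk, Matrix.cons_val]
          rw [hT2]; ring
    · -- general point
      obtain ⟨ρ, B, hρ, hB, ha, y, hY, hZ⟩ :=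
        exists_param a (1 / P 0 + c) (P 1 / P 0 ^ 2) hdisc
      set κ : ℂ := -1 / (1728 * ρ ^ 5 * B ^ 3) with hκ
      set l : ℂ := -1728 * ρ ^ 6 * B ^ 3 with hl
      set m : ℂ := (9 * B - 2 * B ^ 3) * l - c with hm
      have hκ0 : κ ≠ 0 := by
        rw [hκ]
        exact div_ne_zero (by norm_num)
          (mul_ne_zero (mul_ne_zero (by norm_num) (pow_ne_zero _ hρ)) (pow_ne_zero _ hB))
      have hl0 : l ≠ 0 := by
        rw [hl]
        exact mul_ne_zero (mul_ne_zero (by norm_num) (pow_ne_zero _ hρ)) (pow_ne_zero _ hB)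
      have hκl : κ * l = ρ := by
        rw [hκ, hl]; field_simp
      have h2 : -1728 * B ^ 3 * κ ^ 6 * l ^ 5 = 1 := by
        have : -1728 * B ^ 3 * κ ^ 6 * l ^ 5 = -1728 * B ^ 3 * κ * (κ * l) ^ 5 := by ring
        rw [this, hκl, hκ]
        field_simp
      have ha' : a = -432 * (κ * l) ^ 4 * B ^ 2 * (B ^ 2 + 1) := by rw [hκl]; exact ha
      have hs : 1 - m * P 0 = l * P 0 * y := by
        have : 1 = P 0 * (l * (y + (9 * B - 2 * B ^ 3)) - c) := by
          have h3 : 1 / P 0 = l * (y + (9 * B - 2 * B ^ 3)) - c := by linear_combination hY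
          rw [← h3]
          field_simp
        rw [hm]
        linear_combination this
      have hz : P 1 = κ ^ 2 * ((1 - m * P 0) ^ 2 + 12 * B * (l * P 0) * (1 - m * P 0)
        + (12 * B ^ 2 - 4) * (l * P 0) ^ 2) := by
        rw [hs]
        have : P 1 = P 0 ^ 2 * (ρ ^ 2 * (y ^ 2 + 12 * B * y + 12 * B ^ 2 - 4)) := by
          rw [← hZ]; field_simp
        rw [this, ← hκl]
        ring
      obtain ⟨v₀, hv₀, hw⟩ : ∃ v₀ : ℂ, v₀ ^ 2 = (1 - m * P 0) ^ 2 - 4 * l ^ 2 * P 0 ^ 2 ∧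
          P 2 = κ ^ 3 * v₀ * ((1 - m * P 0) ^ 2 + 18 * B * (l * P 0) * (1 - m * P 0)
            + (72 * B ^ 2 - 4) * (l * P 0) ^ 2) := by
        obtain ⟨v, hv⟩ := IsAlgClosed.exists_pow_nat_eq
          ((1 - m * P 0) ^ 2 - 4 * l ^ 2 * P 0 ^ 2) (n := 2) (by norm_num)
        have hsq : P 2 ^ 2 = (κ ^ 3 * v * ((1 - m * P 0) ^ 2 + 18 * B * (l * P 0) * (1 - m * P 0)
            + (72 * B ^ 2 - 4) * (l * P 0) ^ 2)) ^ 2 := by
          rw [surface_identity κ l m B a c (P 0) v hv h2 hm ha', ← hz, hS]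
        rcases sq_eq_sq_iff_eq_or_eq_neg.1 hsq with h | h
        · exact ⟨v, hv, h⟩
        · exact ⟨-v, by rw [neg_sq, hv], by rw [h]; ring⟩
      obtain ⟨X, V, hXV, ⟨s, t, hst⟩, ⟨t₀, ht₀X, ht₀V⟩⟩ := conic l m (P 0) v₀ hl0 hv₀
      refine ⟨![X,
        LaurentPolynomial.C (κ ^ 2) * ((1 - LaurentPolynomial.C m * X) ^ 2
          + LaurentPolynomial.C (12 * B) * (LaurentPolynomial.C l * X)
            * (1 - LaurentPolynomial.C m * X)
          + LaurentPolynomial.C (12 * B ^ 2 - 4) * (LaurentPolynomial.C l * X) ^ 2),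
        LaurentPolynomial.C (κ ^ 3) * V * ((1 - LaurentPolynomial.C m * X) ^ 2
          + LaurentPolynomial.C (18 * B) * (LaurentPolynomial.C l * X)
            * (1 - LaurentPolynomial.C m * X)
          + LaurentPolynomial.C (72 * B ^ 2 - 4) * (LaurentPolynomial.C l * X) ^ 2)],
        ⟨?_, ?_⟩, ?_⟩
      · intro t
        rw [mem_U_iff]
        constructor
        · simp only [valueAt, Matrix.cons_val_zero, Matrix.cons_val_one, Matrix.cons_val_two,
            Matrix.head_cons, Matrix.tail_cons, Matrix.cons_val, map_mul, map_sub, map_add,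
            map_pow, map_one, LaurentPolynomial.eval₂_C, RingHom.id_apply]
          exact surface_identity κ l m B a c _ _ (hXV t) h2 hm ha'
        · by_cases h0 : LaurentPolynomial.eval₂ (RingHom.id ℂ) t X = 0
          · right
            simp only [valueAt, Matrix.cons_val_zero, Matrix.cons_val_one, Matrix.cons_val_two,
              Matrix.head_cons, Matrix.tail_cons, Matrix.cons_val, map_mul, map_sub, map_add,
              map_pow, map_one, LaurentPolynomial.eval₂_C, RingHom.id_apply, h0]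
            have : κ ^ 2 * ((1 - m * 0) ^ 2 + 12 * B * (l * 0) * (1 - m * 0)
                + (12 * B ^ 2 - 4) * (l * 0) ^ 2) = κ ^ 2 := by ring
            rw [this]
            exact pow_ne_zero _ hκ0
          · left
            simpa [valueAt] using h0
      · refine ⟨s, t, ?_⟩
        intro h
        apply hst
        simpa [valueAt] using congrFun h 0
      · refine ⟨t₀, ?_⟩
        funext i
        fin_cases i
        · simpa [valueAt] using ht₀X
        · simp only [valueAt, Matrix.cons_val_one, Matrix.cons_val_zero, Matrix.head_cons,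
            map_mul, map_sub, map_add, map_pow, map_one, LaurentPolynomial.eval₂_C,
            RingHom.id_apply, Fin.mk_one, ht₀X]
          exact hz.symm
        · simp only [valueAt, Matrix.cons_val_two, Matrix.tail_cons, Matrix.head_cons,
            map_mul, map_sub, map_add, map_pow, map_one, LaurentPolynomial.eval₂_C,
            RingHom.id_apply, Fin.reduceFinMk, Matrix.cons_val, ht₀X, ht₀V]
          exact hw.symm

end Pool.Agent.Helper48.KM.E8C
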