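import Pool.Agent.Helper48.KM.Stmts
import Pool.Agent.Helper48.KM.E8C

set_option autoImplicit false

namespace Pool.Agent.Helper48.KM

open MvPolynomial

theorem st_ONE : ST_ONE := by
  intro A C P hP
  obtain ⟨h1, h2⟩ := hP
  have hU : P ∈ Pool.Agent.Helper48.KM.E8C.U A C := by
    rw [Pool.Agent.Helper48.KM.E8C.mem_U_iff]
    refine ⟨by rw [h1]; ring, ?_⟩
    by_contra hcon
    push Not at hcon
    apply h2
    refine ⟨hcon.1, ?_⟩
    rw [hcon.2, zero_mul]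
  obtain ⟨f, ⟨hf1, hf2⟩, t, ht⟩ := Pool.Agent.Helper48.KM.E8C.result A C P hU
  refine ⟨f, ⟨fun s => ?_, hf2⟩, t, ht⟩
  have h3 := hf1 s
  rw [Pool.Agent.Helper48.KM.E8C.mem_U_iff] at h3
  obtain ⟨h4, h5⟩ := h3
  have h6 : val f s = Pool.Agent.Helper48.KM.E8C.valueAt f s := rfl
  rw [← h6] at h4 h5
  refine ⟨by rw [h4]; ring, ?_⟩
  rintro ⟨h7, h8⟩
  rcases h5 with h5 | h5
  · exact h5 h7
  · apply h5
    rw [h7] at h4
    have h9 : val f s 2 ^ 2 = val f s 1 ^ 3 := by rw [h4]; ring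
    rcases mul_eq_zero.1 h8 with h10 | h10
    · exact h10
    · rw [h10] at h9
      have h11 : val f s 1 ^ 3 = 0 := by rw [← h9]; ring
      exact pow_eq_zero_iff (by norm_num) |>.1 h11

end Pool.Agent.Helper48.KM
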