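import Pool.Agent.Helper48.KM.Defs

set_option autoImplicit false

namespace Pool.Agent.Helper48.KM

open MvPolynomial

noncomputable section

/-- DOM: enough curves give domination. `G` is the equation, `b` the polynomials not all zero on V. -/
def ST_DOM : Prop := ∀ (V : Set (Fin 3 → ℂ)) (G : MvPolynomial (Fin 3) ℂ) (b : Fin 2 → MvPolynomial (Fin 3) ℂ),
  (∀ P, P ∈ V ↔ eval P G = 0 ∧ ∃ i, eval P (b i) ≠ 0) →
  (∀ g : ℕ → MvPolynomial (Fin 3) ℂ, (∀ n, ∃ P ∈ V, eval P (g n) ≠ 0) →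
    ∃ f : Fin 3 → LaurentPolynomial ℂ, IsGm V f ∧ ∀ n, ∃ s : ℂˣ, eval (val f s) (g n) ≠ 0) →
  DominatedByGm V

/-- LV: a Laurent polynomial vanishing at all units is zero -/
def ST_LV : Prop := ∀ f : LaurentPolynomial ℂ, (∀ s : ℂˣ, LaurentPolynomial.eval₂ (RingHom.id ℂ) s f = 0) → f = 0

/-- BZ: Laurent polynomials without common zero generate the unit ideal -/
def ST_BZ : Prop := ∀ f g : LaurentPolynomial ℂ,
  (∀ s : ℂˣ, LaurentPolynomial.eval₂ (RingHom.id ℂ) s f ≠ 0 ∨ LaurentPolynomial.eval₂ (RingHom.id ℂ) s g ≠ 0) →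
  ∃ u v : LaurentPolynomial ℂ, u * f + v * g = 1

/-- DEN: a nonzero polynomial in (z,x) vanishes on curves with finitely many limits only -/
def ST_DEN : Prop := ∀ (w : ℕ) (N : MvPolynomial (Fin 2) ℂ), 1 ≤ w → N ≠ 0 →
  {ξ : ℂ | ∃ f : Fin 3 → LaurentPolynomial ℂ, Lim w f ξ ∧ ∀ s : ℂˣ, eval ![val f s 0, val f s 1] N = 0}.Finite

/-- NRM: norm from the double plane `l(z) y^2 = Q(z,x)` -/
def ST_NRM : Prop := ∀ (Q : Polynomial (Polynomial ℂ)) (l : Polynomial ℂ), l ≠ 0 → Odd Q.natDegree →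
  ∀ g : MvPolynomial (Fin 3) ℂ,
    (∃ N : MvPolynomial (Fin 2) ℂ, N ≠ 0 ∧ ∀ P : Fin 3 → ℂ,
      l.eval (P 0) * P 2 ^ 2 = (Q.map (Polynomial.evalRingHom (P 0))).eval (P 1) → eval P g = 0 →
      eval ![P 0, P 1] N = 0) ∨
    ∀ P : Fin 3 → ℂ, l.eval (P 0) ≠ 0 →
      l.eval (P 0) * P 2 ^ 2 = (Q.map (Polynomial.evalRingHom (P 0))).eval (P 1) → eval P g = 0

/-- NIN: the points with z = 0 on the cubic surface -/
def ST_NIN : Prop := ∀ (A C : ℂ) (g : MvPolynomial (Fin 3) ℂ),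
  (∀ P ∈ surfNine A C, P 0 ≠ 0 → eval P g = 0) → ∀ P ∈ surfNine A C, eval P g = 0

/-- UNC: a map with finite fibres from a cofinite subset of ℂ has uncountable image -/
def ST_UNC : Prop := ∀ (S : Set ℂ) (φ : ℂ → ℂ), Sᶜ.Finite → (∀ ξ : ℂ, {x ∈ S | φ x = ξ}.Finite) → ¬ (φ '' S).Countable

/-- families: curves for all ξ in an uncountable set -/
def Many (w : ℕ) (V : Set (Fin 3 → ℂ)) : Prop :=
  ¬ {ξ : ℂ | ∃ f : Fin 3 → LaurentPolynomial ℂ, IsGm V f ∧ Lim w f ξ}.Countable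

/-- EV k: the families for e = 4, 2, 0 (d = 2k) -/
def ST_EV1 : Prop := ∀ A C : ℂ, (A ≠ 0 ∨ C ≠ 0) → Many 2 (surfLow 4 A C)
def ST_EV2 : Prop := ∀ A C : ℂ, (A ≠ 0 ∨ C ≠ 0) → Many 2 (surfLow 2 A C)
def ST_EV3 : Prop := ∀ A C : ℂ, (A ≠ 0 ∨ C ≠ 0) → Many 2 (surfLow 0 A C)
/-- e = 3 (d = 3, type E6) -/
def ST_TH : Prop := ∀ A C : ℂ, (A ≠ 0 ∨ C ≠ 0) → Many 2 (surfLow 3 A C)
/-- e = 1 (d = 5, type A4) -/
def ST_FI : Prop := ∀ A C : ℂ, (A ≠ 0 ∨ C ≠ 0) → Many 2 (surfLow 1 A C)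
def ST_EI : Prop := ∀ A C : ℂ, (A ≠ 0 ∨ C ≠ 0) → Many 1 (surfEight A C)
def ST_NI : Prop := ∀ A C : ℂ, (A ≠ 0 ∨ C ≠ 0) → Many 1 (surfNine A C)

/-- ONE: e = 5 (d = 1, type E8): a curve through every point (helper67) -/
def ST_ONE : Prop := ∀ (A C : ℂ) (P : Fin 3 → ℂ), P ∈ surfLow 5 A C →
  ∃ f : Fin 3 → LaurentPolynomial ℂ, IsGm (surfLow 5 A C) f ∧ ∃ s : ℂˣ, val f s = P

/-- A4 data: polynomial identities in Tate normal form, ρ = slope at the node -/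
def ST_A4ID : Prop := ∀ s k ρ : ℂ,
  let c := (s - 1) * k
  let b := k ^ 2 * (4 * s ^ 2 - 6 * s + 1) / 4 + k * (s - 1)
  let L := 1 + 2 * s ^ 2 * k
  let a1 := 1 - c + L
  let xn := -c ^ 2 - 3 / 2 * c * ((2 - s) * k) + c - ((2 - s) * k) ^ 2 / 2
  let yn := 9 / 2 * c ^ 3 + 21 / 4 * c ^ 2 * ((2 - s) * k) + 9 / 4 * c ^ 2 + 2 * c * ((2 - s) * k) ^ 2
    + 3 / 2 * c * ((2 - s) * k) + ((2 - s) * k) ^ 3 / 4 + ((2 - s) * k) ^ 2 / 4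
  let a2 := -b - L * (c + 1) + 3 * xn
  let x := xn + (ρ ^ 2 + a1 * ρ - a2)
  let y := yn + ρ * (ρ ^ 2 + a1 * ρ - a2)
  y ^ 2 + (1 - c) * x * y - b * y - x ^ 3 + b * x ^ 2 =
    -L * ((ρ + 1 + s * k) ^ 3 * (ρ + 1 + k * (2 * s - 1) ^ 2 / 2) ^ 2)

/-- final statement -/
def ST_ALL : Prop := ∀ A C : ℂ, (A ≠ 0 ∨ C ≠ 0) →
  (∀ e : ℕ, e ≤ 5 → DominatedByGm (surfLow e A C)) ∧ DominatedByGm (surfEight A C) ∧ DominatedByGm (surfNine A C)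

end

end Pool.Agent.Helper48.KM
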