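import Pool.Agent.Helper48.KM.Stmts

set_option autoImplicit false

namespace Pool.Agent.Helper48.KM

theorem st_A4ID : ST_A4ID := by
  intro s k ρ
  simp only
  ring

end Pool.Agent.Helper48.KM
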