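import Pool.Agent.Helper48.KM.Stmts

set_option autoImplicit false

namespace Pool.Agent.Helper48.KM

open MvPolynomial

noncomputable section

abbrev DomIdx (M : ℕ) : Type := (Fin 3 ⊕ Fin 2) × Fin (2 * M + 1) ⊕ Unit

/-- universal Laurent polynomials -/
def domU (M : ℕ) (a : Fin 3 ⊕ Fin 2) : LaurentPolynomial (MvPolynomial (Fin (Fintype.card (DomIdx M))) ℂ) :=
  ∑ k : Fin (2 * M + 1), LaurentPolynomial.C (X (Fintype.equivFin (DomIdx M) (Sum.inl (a, k)))) *
    LaurentPolynomial.T ((k : ℤ) - M)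

/-- specialization -/
def domS {n : ℕ} (t : Fin n → ℂ) : LaurentPolynomial (MvPolynomial (Fin n) ℂ) →+* LaurentPolynomial ℂ :=
  AddMonoidAlgebra.mapRingHom ℤ (eval t)

lemma domS_coeff {n : ℕ} (t : Fin n → ℂ) (f : LaurentPolynomial (MvPolynomial (Fin n) ℂ)) (k : ℤ) :
    (domS t f).coeff k = eval t (f.coeff k) :=
  AddMonoidAlgebra.coeff_mapRingHom _ _ _

lemma domS_C {n : ℕ} (t : Fin n → ℂ) (p : MvPolynomial (Fin n) ℂ) :
    domS t (LaurentPolynomial.C p) = LaurentPolynomial.C (eval t p) := by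
  apply LaurentPolynomial.ext
  intro k
  rw [domS_coeff, LaurentPolynomial.C_apply, LaurentPolynomial.C_apply]
  split_ifs
  · rfl
  · exact map_zero _

lemma domS_T {n : ℕ} (t : Fin n → ℂ) (m : ℤ) :
    domS t (LaurentPolynomial.T m) = LaurentPolynomial.T m := by
  apply LaurentPolynomial.ext
  intro k
  rw [domS_coeff, LaurentPolynomial.T_apply, LaurentPolynomial.T_apply]
  split_ifs
  · exact map_one _
  · exact map_zero _

lemma domS_eval {n : ℕ} (t : Fin n → ℂ) (s : ℂˣ) (f : LaurentPolynomial (MvPolynomial (Fin n) ℂ)) :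
    LaurentPolynomial.eval₂ (eval t) s f = LaurentPolynomial.eval₂ (RingHom.id ℂ) s (domS t f) := by
  induction f using LaurentPolynomial.induction_on' with
  | add p q hp hq => rw [map_add, map_add, map_add, hp, hq]
  | C_mul_T n a =>
    rw [map_mul, map_mul, map_mul, domS_C, domS_T, LaurentPolynomial.eval₂_C, LaurentPolynomial.eval₂_C,
      LaurentPolynomial.eval₂_T, LaurentPolynomial.eval₂_T]
    rfl

lemma domS_aeval {n : ℕ} (t : Fin n → ℂ) (F : Fin 3 → LaurentPolynomial (MvPolynomial (Fin n) ℂ))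
    (g : MvPolynomial (Fin 3) ℂ) :
    domS t (eval₂ (LaurentPolynomial.C.comp MvPolynomial.C) F g) =
      eval₂ (LaurentPolynomial.C) (fun i => domS t (F i)) g := by
  induction g using MvPolynomial.induction_on with
  | C a =>
    rw [eval₂_C, eval₂_C]
    show domS t (LaurentPolynomial.C (MvPolynomial.C a)) = _
    rw [domS_C, eval_C]
  | add p q hp hq => rw [eval₂_add, eval₂_add, map_add, hp, hq]
  | mul_X p i hp => rw [eval₂_mul, eval₂_mul, map_mul, hp, eval₂_X, eval₂_X]

lemma dom_eval (f : Fin 3 → LaurentPolynomial ℂ) (s : ℂˣ) (g : MvPolynomial (Fin 3) ℂ) :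
    LaurentPolynomial.eval₂ (RingHom.id ℂ) s (eval₂ (LaurentPolynomial.C) f g) = eval (val f s) g := by
  induction g using MvPolynomial.induction_on with
  | C a =>
    rw [eval₂_C, eval_C, LaurentPolynomial.eval₂_C]
    rfl
  | add p q hp hq => rw [eval₂_add, map_add, hp, hq, map_add]
  | mul_X p i hp => rw [eval₂_mul, map_mul, hp, eval₂_X, map_mul, eval_X]; rfl

lemma dom_expand (M : ℕ) (f : LaurentPolynomial ℂ) (hf : ∀ k : ℤ, (M : ℤ) < |k| → f.coeff k = 0) :
    ∑ k : Fin (2 * M + 1), LaurentPolynomial.C (f.coeff ((k : ℤ) - M)) * LaurentPolynomial.T ((k : ℤ) - M) = f := by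
  apply LaurentPolynomial.ext
  intro m
  rw [AddMonoidAlgebra.coeff_sum, Finsupp.finsetSum_apply]
  have h1 : ∀ k : Fin (2 * M + 1), (LaurentPolynomial.C (f.coeff ((k : ℤ) - M)) *
      LaurentPolynomial.T ((k : ℤ) - M)).coeff m = if (k : ℤ) - M = m then f.coeff m else 0 := by
    intro k
    rw [← LaurentPolynomial.single_eq_C_mul_T, AddMonoidAlgebra.coeff_single, Finsupp.single_apply]
    split_ifs with h
    · rw [h]
    · rfl
  rw [Finset.sum_congr rfl (fun k _ => h1 k)]
  by_cases hm : (M : ℤ) < |m|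
  · rw [hf m hm]
    simp
  · push Not at hm
    rw [abs_le] at hm
    have hk : (m + M).toNat < 2 * M + 1 := by omega
    rw [Finset.sum_eq_single (⟨(m + M).toNat, hk⟩ : Fin (2 * M + 1))]
    · rw [if_pos]
      simp only
      omega
    · intro b _ hb
      rw [if_neg]
      intro h
      apply hb
      apply Fin.ext
      simp only
      omega
    · intro h
      exact absurd (Finset.mem_univ _) h

lemma domS_U (M : ℕ) (t : Fin (Fintype.card (DomIdx M)) → ℂ) (a : Fin 3 ⊕ Fin 2) :
    domS t (domU M a) = ∑ k : Fin (2 * M + 1),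
      LaurentPolynomial.C (t (Fintype.equivFin (DomIdx M) (Sum.inl (a, k)))) * LaurentPolynomial.T ((k : ℤ) - M) := by
  unfold domU
  rw [map_sum]
  refine Finset.sum_congr rfl (fun k _ => ?_)
  rw [map_mul, domS_C, domS_T, eval_X]

/-- bounded support -/
lemma dom_bound (f : LaurentPolynomial ℂ) : ∃ M : ℕ, ∀ k : ℤ, (M : ℤ) < |k| → f.coeff k = 0 := by
  refine ⟨∑ k ∈ f.coeff.support, k.natAbs, ?_⟩
  intro k hk
  by_contra h
  have h1 : k ∈ f.coeff.support := Finsupp.mem_support_iff.2 h
  have h2 : k.natAbs ≤ ∑ k ∈ f.coeff.support, k.natAbs :=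
    Finset.single_le_sum (f := fun k : ℤ => k.natAbs) (fun _ _ => Nat.zero_le _) h1
  have h3 : |k| = (k.natAbs : ℤ) := Int.abs_eq_natAbs k
  rw [h3] at hk
  have : (k.natAbs : ℤ) ≤ ((∑ k ∈ f.coeff.support, k.natAbs : ℕ) : ℤ) := by exact_mod_cast h2
  omega

theorem st_DOM (hLV : ST_LV) (hBZ : ST_BZ) : ST_DOM := by
  intro V G b hV H
  by_contra hnot
  -- the family with data (M, i, j)
  let R : ℕ → Type := fun M => MvPolynomial (Fin (Fintype.card (DomIdx M))) ℂ
  let F : (M : ℕ) → Fin 3 → LaurentPolynomial (MvPolynomial (Fin (Fintype.card (DomIdx M))) ℂ) :=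
    fun M i => domU M (Sum.inl i)
  let E1 : (M : ℕ) → LaurentPolynomial (MvPolynomial (Fin (Fintype.card (DomIdx M))) ℂ) :=
    fun M => eval₂ (LaurentPolynomial.C.comp MvPolynomial.C) (F M) G
  let E2 : (M : ℕ) → LaurentPolynomial (MvPolynomial (Fin (Fintype.card (DomIdx M))) ℂ) :=
    fun M => domU M (Sum.inr 0) * eval₂ (LaurentPolynomial.C.comp MvPolynomial.C) (F M) (b 0) +
      domU M (Sum.inr 1) * eval₂ (LaurentPolynomial.C.comp MvPolynomial.C) (F M) (b 1) - 1
  let J : (M : ℕ) → Fin 3 → ℤ → Set (MvPolynomial (Fin (Fintype.card (DomIdx M))) ℂ) :=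
    fun M i j => {p | (∃ k, p = (E1 M).coeff k) ∨ (∃ k, p = (E2 M).coeff k) ∨
      p = (F M i).coeff j * X (Fintype.equivFin (DomIdx M) (Sum.inr ())) - 1}
  have key : ∀ (M : ℕ) (i : Fin 3) (j : {j : ℤ // j ≠ 0}), ∃ g : MvPolynomial (Fin 3) ℂ,
      (∀ t, (∀ p ∈ J M i j, eval t p = 0) → ∀ s : ℂˣ, eval (famValue (F M) t s) g = 0) ∧
      ∃ P ∈ V, eval P g ≠ 0 := by
    intro M i j
    by_contra hc
    push Not at hc
    apply hnot
    refine ⟨Fintype.card (DomIdx M), J M i j, F M, ?_, ?_⟩
    · intro t ht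
      have hval : ∀ s : ℂˣ, famValue (F M) t s = val (fun i => domS t (F M i)) s := by
        intro s
        funext l
        exact domS_eval t s (F M l)
      have hE1 : domS t (E1 M) = 0 := by
        apply LaurentPolynomial.ext
        intro k
        rw [domS_coeff, ht _ (Or.inl ⟨k, rfl⟩)]
        rfl
      have hE2 : domS t (E2 M) = 0 := by
        apply LaurentPolynomial.ext
        intro k
        rw [domS_coeff, ht _ (Or.inr (Or.inl ⟨k, rfl⟩))]
        rfl
      have hG : ∀ s : ℂˣ, eval (val (fun i => domS t (F M i)) s) G = 0 := by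
        intro s
        rw [← dom_eval, ← domS_aeval]
        show LaurentPolynomial.eval₂ (RingHom.id ℂ) s (domS t (E1 M)) = 0
        rw [hE1, map_zero]
      have hB : ∀ s : ℂˣ, ∃ l, eval (val (fun i => domS t (F M i)) s) (b l) ≠ 0 := by
        intro s
        by_contra hcon
        push Not at hcon
        have h1 : LaurentPolynomial.eval₂ (RingHom.id ℂ) s (domS t (E2 M)) = 0 := by rw [hE2, map_zero]
        have h2 : domS t (E2 M) = domS t (domU M (Sum.inr 0)) *
            eval₂ (LaurentPolynomial.C) (fun i => domS t (F M i)) (b 0) +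
            domS t (domU M (Sum.inr 1)) * eval₂ (LaurentPolynomial.C) (fun i => domS t (F M i)) (b 1) - 1 := by
          show domS t (domU M (Sum.inr 0) * eval₂ (LaurentPolynomial.C.comp MvPolynomial.C) (F M) (b 0) +
            domU M (Sum.inr 1) * eval₂ (LaurentPolynomial.C.comp MvPolynomial.C) (F M) (b 1) - 1) = _
          rw [map_sub, map_add, map_mul, map_mul, domS_aeval, domS_aeval, map_one]
        rw [h2, map_sub, map_add, map_mul, map_mul, dom_eval, dom_eval, hcon 0, hcon 1, map_one] at h1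
        simp at h1
      constructor
      · intro s
        rw [hval, hV]
        exact ⟨hG s, hB s⟩
      · by_contra hcon
        push Not at hcon
        -- coordinate i is constant
        have h1 : ∀ s : ℂˣ, LaurentPolynomial.eval₂ (RingHom.id ℂ) s
            (domS t (F M i) - LaurentPolynomial.C (famValue (F M) t 1 i)) = 0 := by
          intro s
          rw [map_sub, LaurentPolynomial.eval₂_C, ← domS_eval]
          have h2 := congrFun (hcon s 1) i
          show LaurentPolynomial.eval₂ (eval t) s (F M i) - famValue (F M) t 1 i = 0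
          rw [← h2]
          show LaurentPolynomial.eval₂ (eval t) s (F M i) - LaurentPolynomial.eval₂ (eval t) s (F M i) = 0
          ring
        have h2 := hLV _ h1
        have h3 := ht _ (Or.inr (Or.inr rfl))
        rw [map_sub, map_mul, map_one, ← domS_coeff, sub_eq_zero.1 h2, LaurentPolynomial.C_apply,
          if_neg j.2] at h3
        simp at h3
    · intro g hg P hP
      by_contra h
      exact h (hc g hg P hP)
  choose g hg1 hg2 using key
  have : Nonempty {j : ℤ // j ≠ 0} := ⟨⟨1, one_ne_zero⟩⟩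
  obtain ⟨en, hen⟩ := exists_surjective_nat (ℕ × Fin 3 × {j : ℤ // j ≠ 0})
  obtain ⟨f, ⟨hf1, hf2⟩, hf3⟩ := H (fun n => g (en n).1 (en n).2.1 (en n).2.2)
    (fun n => hg2 _ _ _)
  -- nonconstant coordinate
  have hnc : ∃ (i : Fin 3) (j : ℤ), j ≠ 0 ∧ (f i).coeff j ≠ 0 := by
    by_contra hcon
    push Not at hcon
    obtain ⟨s, s', hss⟩ := hf2
    apply hss
    funext i
    have h1 : f i = LaurentPolynomial.C ((f i).coeff 0) := by
      apply LaurentPolynomial.ext
      intro k
      rw [LaurentPolynomial.C_apply]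
      split_ifs with h
      · rw [h]
      · exact hcon i k h
    show LaurentPolynomial.eval₂ (RingHom.id ℂ) s (f i) = LaurentPolynomial.eval₂ (RingHom.id ℂ) s' (f i)
    rw [h1, LaurentPolynomial.eval₂_C, LaurentPolynomial.eval₂_C]
  obtain ⟨i, j, hj, hij⟩ := hnc
  -- Bezout
  obtain ⟨u, v, huv⟩ := hBZ (eval₂ (LaurentPolynomial.C) f (b 0)) (eval₂ (LaurentPolynomial.C) f (b 1)) (by
    intro s
    rw [dom_eval, dom_eval]
    obtain ⟨l, hl⟩ := ((hV _).1 (hf1 s)).2
    fin_cases l
    · exact Or.inl hl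
    · exact Or.inr hl)
  obtain ⟨M0, hM0⟩ := dom_bound (f 0)
  obtain ⟨M1, hM1⟩ := dom_bound (f 1)
  obtain ⟨M2, hM2⟩ := dom_bound (f 2)
  obtain ⟨M3, hM3⟩ := dom_bound u
  obtain ⟨M4, hM4⟩ := dom_bound v
  let M : ℕ := M0 + M1 + M2 + M3 + M4
  let a : Fin 3 ⊕ Fin 2 → LaurentPolynomial ℂ := Sum.elim f ![u, v]
  have ha : ∀ x : Fin 3 ⊕ Fin 2, ∀ k : ℤ, (M : ℤ) < |k| → (a x).coeff k = 0 := by
    intro x k hk
    have hk' : ((M0 + M1 + M2 + M3 + M4 : ℕ) : ℤ) < |k| := hk
    push_cast at hk'
    rcases x with x | x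
    · fin_cases x
      · exact hM0 k (by omega)
      · exact hM1 k (by omega)
      · exact hM2 k (by omega)
    · fin_cases x
      · exact hM3 k (by omega)
      · exact hM4 k (by omega)
  let t : Fin (Fintype.card (DomIdx M)) → ℂ := fun x =>
    Sum.elim (fun y : (Fin 3 ⊕ Fin 2) × Fin (2 * M + 1) => (a y.1).coeff ((y.2 : ℤ) - M))
      (fun _ => ((f i).coeff j)⁻¹) ((Fintype.equivFin (DomIdx M)).symm x)
  have htU : ∀ x, domS t (domU M x) = a x := by
    intro x
    rw [domS_U, ← dom_expand M (a x) (ha x)]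
    refine Finset.sum_congr rfl (fun k _ => ?_)
    have : t (Fintype.equivFin (DomIdx M) (Sum.inl (x, k))) = (a x).coeff ((k : ℤ) - M) := by
      simp only [t, Equiv.symm_apply_apply, Sum.elim_inl]
    rw [this]
  have htF : (fun i => domS t (F M i)) = f := by
    funext l
    exact htU (Sum.inl l)
  have htJ : ∀ p ∈ J M i j, eval t p = 0 := by
    intro p hp
    rcases hp with ⟨k, rfl⟩ | ⟨k, rfl⟩ | rfl
    · rw [← domS_coeff]
      have h1 : domS t (E1 M) = 0 := by
        show domS t (eval₂ (LaurentPolynomial.C.comp MvPolynomial.C) (F M) G) = 0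
        rw [domS_aeval, htF]
        apply hLV
        intro s
        rw [dom_eval]
        exact ((hV _).1 (hf1 s)).1
      rw [h1]
      rfl
    · rw [← domS_coeff]
      have h1 : domS t (E2 M) = 0 := by
        show domS t (domU M (Sum.inr 0) * eval₂ (LaurentPolynomial.C.comp MvPolynomial.C) (F M) (b 0) +
            domU M (Sum.inr 1) * eval₂ (LaurentPolynomial.C.comp MvPolynomial.C) (F M) (b 1) - 1) = 0
        rw [map_sub, map_add, map_mul, map_mul, domS_aeval, domS_aeval, map_one, htF, htU, htU]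
        show u * _ + v * _ - 1 = 0
        rw [huv, sub_self]
      rw [h1]
      rfl
    · rw [map_sub, map_mul, map_one, ← domS_coeff, eval_X]
      have h1 : domS t (F M i) = f i := congrFun htF i
      have h2 : t (Fintype.equivFin (DomIdx M) (Sum.inr ())) = ((f i).coeff j)⁻¹ := by
        simp only [t, Equiv.symm_apply_apply, Sum.elim_inr]
      rw [h1, h2, mul_inv_cancel₀ hij, sub_self]
  obtain ⟨n, hn⟩ := hen (M, i, ⟨j, hj⟩)
  obtain ⟨s, hs⟩ := hf3 n
  apply hs
  have h1 := hg1 M i ⟨j, hj⟩ t htJ s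
  have h2 : famValue (F M) t s = val f s := by
    funext l
    show LaurentPolynomial.eval₂ (eval t) s (F M l) = _
    rw [domS_eval, congrFun htF l]
    rfl
  rw [h2] at h1
  show eval (val f s) (g (en n).1 (en n).2.1 (en n).2.2) = 0
  rw [hn]
  exact h1

end

end Pool.Agent.Helper48.KM
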